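import Pool.Agent.H540Z.Tor.Geom

set_option autoImplicit false
open Complex Set Filter Metric Topology

namespace Pool.Agent.H540Z.Tor

/-- At a local maximum of the distance to a closed set, in every direction some nearest point is
not behind. -/
theorem locMax_nearest {K : Set ℂ} (hK : IsClosed K) (hne : K.Nonempty) {z : ℂ}
    (hz : IsLocalMax (fun w : ℂ => infDist w K) z) (u : ℂ) :
    ∃ k ∈ K, (∀ k' ∈ K, ‖z - k‖ ≤ ‖z - k'‖) ∧ u.re * (z - k).re + u.im * (z - k).im ≤ 0 := by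
  set K' : Set ℂ := K ∩ {k | u.re * (z - k).re + u.im * (z - k).im ≤ 0} with hK'
  have hK'c : IsClosed K' := hK.inter (isClosed_le (by fun_prop) continuous_const)
  have hc : Tendsto (fun t : ℝ => z + t * u) (𝓝[>] 0) (𝓝 z) := by
    have : Continuous fun t : ℝ => z + t * u := by fun_prop
    have h := this.tendsto 0
    simp only [ofReal_zero, zero_mul, add_zero] at h
    exact h.mono_left nhdsWithin_le_nhds
  have hev : ∀ᶠ t : ℝ in 𝓝[>] 0, ∃ k ∈ K', dist (z + t * u) k ≤ infDist z K := by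
    filter_upwards [hc.eventually hz, self_mem_nhdsWithin] with t ht ht0
    obtain ⟨k, hk, hkd⟩ := hK.exists_infDist_eq_dist hne (z + t * u)
    have h1 : dist (z + t * u) k ≤ infDist z K := hkd ▸ ht
    refine ⟨k, ⟨hk, ?_⟩, h1⟩
    have h2 : dist (z + t * u) k ≤ dist z k := h1.trans (infDist_le_dist_of_mem hk)
    rw [dist_eq_norm, dist_eq_norm, ← sq_le_sq₀ (norm_nonneg _) (norm_nonneg _), nsq, nsq] at h2
    simp only [sub_re, add_re, mul_re, ofReal_re, ofReal_im, zero_mul, sub_zero, sub_im, add_im,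
      mul_im, add_zero] at h2
    simp only [mem_ofPred_eq, sub_re, sub_im]
    have ht0' : (0:ℝ) < t := ht0
    by_contra hcon
    rw [not_le] at hcon
    nlinarith [mul_pos ht0' hcon, sq_nonneg (t * u.re), sq_nonneg (t * u.im)]
  have hne' : K'.Nonempty := by
    obtain ⟨t, k, hk, -⟩ := hev.exists
    exact ⟨k, hk⟩
  have hle : infDist z K' ≤ infDist z K := by
    have h1 : Tendsto (fun t : ℝ => infDist (z + t * u) K') (𝓝[>] 0) (𝓝 (infDist z K')) :=
      ((continuous_infDist_pt K').tendsto z).comp hc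
    refine le_of_tendsto h1 ?_
    filter_upwards [hev] with t ⟨k, hk, hkd⟩
    exact (infDist_le_dist_of_mem hk).trans hkd
  obtain ⟨k, hk, hkd⟩ := hK'c.exists_infDist_eq_dist hne' z
  refine ⟨k, hk.1, fun k' hk' => ?_, hk.2⟩
  rw [← dist_eq_norm, ← dist_eq_norm, ← hkd]
  exact hle.trans (infDist_le_dist_of_mem hk')

theorem lemA {p q s t : ℝ} (h1 : -24 ≤ p) (h2 : p ≤ 0) (h3 : -1 ≤ q) (h4 : q < 0)
    (hk : K0 s t ∨ K0 (-s - 24) (-t - 2)) (hn : (p - s) ^ 2 + (q - t) ^ 2 ≤ q ^ 2)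
    (hs : -1 < q ∨ (p - s) ^ 2 + (q - t) ^ 2 < q ^ 2) : q < t ∧ (-1 < q ∨ False) := by
  have h5 : 2 * q ≤ t := by nlinarith [sq_nonneg (p - s)]
  have h5' : t ≤ 0 := by nlinarith [sq_nonneg (p - s)]
  rcases hs with hs | hs
  · refine ⟨?_, Or.inl hs⟩
    by_contra hcon
    rw [not_lt] at hcon
    rcases hk with (⟨k1, k2⟩ | ⟨k1, k2 | k2⟩) | (⟨k1, k2⟩ | ⟨k1, k2 | k2⟩)
    · linarith
    · linarith
    · nlinarith [mul_nonneg k2 (neg_nonneg.2 h2)]
    · linarith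
    · linarith
    · have e : 0 ≤ (-s - 24) * (p + 24) := mul_nonneg k2 (by linarith)
      have e2 : 0 ≤ (q - t) * (q + 2) := mul_nonneg (by linarith) (by linarith)
      nlinarith [sq_nonneg (p + 24)]
  · rcases h3.eq_or_lt with h3 | h3
    · exfalso
      subst h3
      have h6 : -2 < t := by nlinarith [sq_nonneg (p - s)]
      have h7 : t < 0 := by nlinarith [sq_nonneg (p - s)]
      rcases hk with (⟨k1, k2⟩ | ⟨k1, k2 | k2⟩) | (⟨k1, k2⟩ | ⟨k1, k2 | k2⟩)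
      · linarith
      · linarith
      · nlinarith [mul_nonneg k2 (neg_nonneg.2 h2), sq_nonneg p]
      · linarith
      · linarith
      · have e : 0 ≤ (-s - 24) * (p + 24) := mul_nonneg k2 (by linarith)
        nlinarith [sq_nonneg (p + 24)]
    · refine ⟨?_, Or.inl h3⟩
      by_contra hcon
      rw [not_lt] at hcon
      rcases hk with (⟨k1, k2⟩ | ⟨k1, k2 | k2⟩) | (⟨k1, k2⟩ | ⟨k1, k2 | k2⟩)
      · linarith
      · linarith
      · nlinarith [mul_nonneg k2 (neg_nonneg.2 h2)]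
      · linarith
      · linarith
      · have e : 0 ≤ (-s - 24) * (p + 24) := mul_nonneg k2 (by linarith)
        have e2 : 0 ≤ (q - t) * (q + 2) := mul_nonneg (by linarith) (by linarith)
        nlinarith [sq_nonneg (p + 24)]

theorem weak {s t : ℝ} (hk : K0 s t ∨ K0 (-s - 24) (-t - 2)) :
    (t = 0 ∧ s ≤ 0) ∨ 4 ≤ s ^ 2 + t ^ 2 := by
  rcases hk with (⟨k1, k2⟩ | ⟨k1, -⟩) | (⟨k1, k2⟩ | ⟨-, k2 | k2⟩)
  · exact Or.inl ⟨k1, k2⟩
  · exact Or.inr k1
  · right; nlinarith [sq_nonneg s]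
  · right; nlinarith [sq_nonneg s]
  · right; nlinarith [sq_nonneg t]

theorem lemB1 {p q s t : ℝ} (h1 : 0 ≤ p) (h2 : 0 < p ^ 2 + q ^ 2) (h3 : p ^ 2 + q ^ 2 < 1)
    (hk : (t = 0 ∧ s ≤ 0) ∨ 4 ≤ s ^ 2 + t ^ 2)
    (hn : (p - s) ^ 2 + (q - t) ^ 2 ≤ p ^ 2 + q ^ 2) : 0 < p * (p - s) + q * (q - t) := by
  rcases hk with ⟨k1, k2⟩ | k1
  · subst k1
    nlinarith [mul_nonneg h1 (neg_nonneg.2 k2)]
  · nlinarith [sq_nonneg (s - 2 * p), sq_nonneg (t - 2 * q)]

theorem lemB2 {p q s t ρ : ℝ} (h1 : 0 ≤ p) (hρ : ρ ^ 2 = p ^ 2 + q ^ 2) (h2 : 1 < ρ) (h3 : ρ < 2)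
    (hk : (t = 0 ∧ s ≤ 0) ∨ 4 ≤ s ^ 2 + t ^ 2)
    (hn : (p - s) ^ 2 + (q - t) ^ 2 ≤ (2 - ρ) ^ 2) : 0 < -p * (p - s) + -q * (q - t) := by
  rcases hk with ⟨k1, k2⟩ | k1
  · subst k1
    nlinarith [mul_nonneg h1 (neg_nonneg.2 k2), sq_nonneg s]
  · nlinarith

theorem lemC {p q s t ρ : ℝ} (h1 : p < 0) (h1' : 0 < q) (hρ : ρ ^ 2 = p ^ 2 + q ^ 2) (h2 : 0 < ρ)
    (h3 : ρ < 2) (hk : (t = 0 ∧ s ≤ 0) ∨ 4 ≤ s ^ 2 + t ^ 2)
    (hn1 : (p - s) ^ 2 + (q - t) ^ 2 ≤ q ^ 2)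
    (hn : (p - s) ^ 2 + (q - t) ^ 2 ≤ (2 - ρ) ^ 2) : 0 < -p * (p - s) + (ρ - q) * (q - t) := by
  have hq : q < ρ := by
    by_contra hcon
    rw [not_lt] at hcon
    nlinarith [mul_pos_of_neg_of_neg h1 h1]
  rcases hk with ⟨k1, k2⟩ | k1
  · subst k1
    have : p - s = 0 := by nlinarith [sq_nonneg (p - s)]
    rw [this]
    nlinarith
  · have h4 : ρ * (2 - ρ) ≤ p * (s - p) + q * (t - q) := by nlinarith
    have h5 : t - q < 2 - ρ := by
      by_contra hcon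
      rw [not_lt] at hcon
      have h6 : (p - s) ^ 2 ≤ 0 := by nlinarith
      have h7 : p - s = 0 := by nlinarith [sq_nonneg (p - s)]
      have h8 : t - q ≤ 2 - ρ := by nlinarith
      have h9 : s - p = 0 := by linarith
      rw [h9] at h4
      nlinarith
    nlinarith

theorem radial {p q ρ : ℝ} (hρ : ρ ^ 2 = p ^ 2 + q ^ 2) (h2 : 0 < ρ) (h : 0 ≤ q ∨ 0 ≤ p) :
    K0 (2 * p / ρ) (2 * q / ρ) ∧ (p - 2 * p / ρ) ^ 2 + (q - 2 * q / ρ) ^ 2 = (2 - ρ) ^ 2 := by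
  constructor
  · right
    constructor
    · have : (2 * p / ρ) ^ 2 + (2 * q / ρ) ^ 2 = 4 * (p ^ 2 + q ^ 2) / ρ ^ 2 := by
        field_simp; ring
      rw [this, ← hρ]
      field_simp
      exact le_rfl
    · rcases h with h | h
      · left; positivity
      · right; positivity
  · have : (p - 2 * p / ρ) ^ 2 + (q - 2 * q / ρ) ^ 2 = (2 - ρ) ^ 2 * (p ^ 2 + q ^ 2) / ρ ^ 2 := by
      field_simp; ring
    rw [this, ← hρ]
    field_simp

theorem notMem_rel {k : ℂ} : k ∉ Om ↔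
    K0 (k.re - 12) (k.im - 1) ∨ K0 (-(k.re - 12) - 24) (-(k.im - 1) - 2) := by
  rw [notMem_iff]
  have e1 : -k.re - 12 = -(k.re - 12) - 24 := by ring
  have e2 : -k.im - 1 = -(k.im - 1) - 2 := by ring
  rw [e1, e2]

theorem pt_notMem {a b : ℝ} (h : K0 a b) : (⟨a + 12, b + 1⟩ : ℂ) ∉ Om := by
  rw [notMem_iff]; left; simpa using h

theorem dist_rel (z k : ℂ) : ‖z - k‖ ^ 2 =
    ((z.re - 12) - (k.re - 12)) ^ 2 + ((z.im - 1) - (k.im - 1)) ^ 2 := by
  rw [nsq]; simp only [sub_re, sub_im]; ring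

theorem dist_pt (z : ℂ) (a b : ℝ) : ‖z - ⟨a + 12, b + 1⟩‖ ^ 2 =
    ((z.re - 12) - a) ^ 2 + ((z.im - 1) - b) ^ 2 := by
  rw [dist_rel]; simp

theorem near_le {z k : ℂ} (hn : ∀ k', k' ∉ Om → ‖z - k‖ ≤ ‖z - k'‖) {a b : ℝ} (h : K0 a b) :
    ((z.re - 12) - (k.re - 12)) ^ 2 + ((z.im - 1) - (k.im - 1)) ^ 2 ≤
      ((z.re - 12) - a) ^ 2 + ((z.im - 1) - b) ^ 2 := by
  rw [← dist_rel, ← dist_pt]
  have := hn _ (pt_notMem h)
  gcongr

/-- the ridge -/
def Gam : Set ℂ := ({z | z.im = 0 ∧ |z.re| ≤ 12} ∪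
  {z | (z.re - 12) ^ 2 + (z.im - 1) ^ 2 = 1 ∧ 12 ≤ z.re}) ∪
  {z | (z.re + 12) ^ 2 + (z.im + 1) ^ 2 = 1 ∧ z.re ≤ -12}

theorem neg_Gam {z : ℂ} : -z ∈ Gam ↔ z ∈ Gam := by
  simp only [Gam, mem_union, mem_ofPred_eq, neg_re, neg_im, neg_eq_zero, abs_neg]
  constructor
  · rintro ((h | ⟨h1, h2⟩) | ⟨h1, h2⟩)
    · exact Or.inl (Or.inl h)
    · exact Or.inr ⟨by linarith, by linarith⟩
    · exact Or.inl (Or.inr ⟨by linarith, by linarith⟩)
  · rintro ((h | ⟨h1, h2⟩) | ⟨h1, h2⟩)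
    · exact Or.inl (Or.inl h)
    · exact Or.inr ⟨by linarith, by linarith⟩
    · exact Or.inl (Or.inr ⟨by linarith, by linarith⟩)

/-- a direction in which all nearest points are behind -/
def Esc (z : ℂ) : Prop := ∃ u : ℂ, ∀ k, k ∉ Om → (∀ k', k' ∉ Om → ‖z - k‖ ≤ ‖z - k'‖) →
  0 < u.re * (z - k).re + u.im * (z - k).im

theorem Esc.neg {z : ℂ} (h : Esc (-z)) : Esc z := by
  obtain ⟨u, hu⟩ := h
  refine ⟨-u, fun k hk hn => ?_⟩
  have := hu (-k) (fun h => hk (neg_mem.1 h)) (fun k' hk' => by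
    have h1 := hn (-k') (fun h => hk' (neg_mem.1 h))
    have e1 : -z - -k = -(z - k) := by ring
    have e2 : -z - k' = -(z - -k') := by ring
    rw [e1, e2, norm_neg, norm_neg]; exact h1)
  simp only [sub_re, neg_re, sub_im, neg_im] at this ⊢
  linarith

theorem esc_A {z : ℂ} (h1 : |z.re| ≤ 12) (h2 : 0 < z.im) (h3 : z.im < 1) : Esc z := by
  rw [abs_le] at h1
  refine ⟨-I, fun k hk hn => ?_⟩
  have h4 := near_le hn (a := z.re - 12) (b := 0) (Or.inl ⟨rfl, by linarith [h1.2]⟩)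
  have := (lemA (p := z.re - 12) (q := z.im - 1) (by linarith [h1.1]) (by linarith [h1.2])
    (by linarith) (by linarith) (notMem_rel.1 hk) (by simpa using h4) (Or.inl (by linarith))).1
  simp only [neg_re, I_re, neg_zero, zero_mul, neg_im, I_im, sub_im, zero_add]
  linarith

theorem esc_D {z : ℂ} (h1 : (z.re - 12) ^ 2 + (z.im - 1) ^ 2 < 4) (h2 : 12 < z.re ∨ 1 < z.im)
    (h3 : z ∉ Gam) : Esc z := by
  set p := z.re - 12 with hp
  set q := z.im - 1 with hq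
  have hpos : 0 < p ^ 2 + q ^ 2 := by
    rcases h2 with h2 | h2
    · have : 0 < p := by linarith
      positivity
    · have : 0 < q := by linarith
      positivity
  set ρ := Real.sqrt (p ^ 2 + q ^ 2) with hρ
  have hρ2 : ρ ^ 2 = p ^ 2 + q ^ 2 := Real.sq_sqrt hpos.le
  have hρ0 : 0 < ρ := Real.sqrt_pos.2 hpos
  have hρ3 : ρ < 2 := by nlinarith
  have hsg : 0 ≤ q ∨ 0 ≤ p := h2.symm.imp (fun h => by linarith) (fun h => by linarith)
  obtain ⟨hr1, hr2⟩ := radial hρ2 hρ0 hsg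
  by_cases hp0 : 0 ≤ p
  · have hne : p ^ 2 + q ^ 2 ≠ 1 := by
      intro h
      exact h3 (Or.inl (Or.inr ⟨h, by linarith⟩))
    rcases lt_or_gt_of_ne hne with h | h
    · refine ⟨⟨p, q⟩, fun k hk hn => ?_⟩
      have h4 := near_le hn (a := 0) (b := 0) (Or.inl ⟨rfl, le_rfl⟩)
      rw [← hp, ← hq, sub_zero, sub_zero] at h4
      have := lemB1 hp0 hpos h (weak (notMem_rel.1 hk)) h4
      simp only [sub_re, sub_im]
      convert this using 2 <;> simp only [hp, hq] <;> ring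
    · refine ⟨⟨-p, -q⟩, fun k hk hn => ?_⟩
      have h4 := near_le hn hr1
      rw [← hp, ← hq, hr2] at h4
      have := lemB2 hp0 hρ2 (by nlinarith) hρ3 (weak (notMem_rel.1 hk)) h4
      simp only [sub_re, sub_im]
      convert this using 2 <;> simp only [hp, hq] <;> ring
  · rw [not_le] at hp0
    have hq0 : 0 < q := by
      rcases h2 with h2 | h2 <;> linarith
    refine ⟨⟨-p, ρ - q⟩, fun k hk hn => ?_⟩
    have h4 := near_le hn hr1
    rw [← hp, ← hq, hr2] at h4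
    have h5 := near_le hn (a := p) (b := 0) (Or.inl ⟨rfl, hp0.le⟩)
    rw [← hp, ← hq, sub_zero, sub_self] at h5
    have := lemC hp0 hq0 hρ2 hρ0 hρ3 (weak (notMem_rel.1 hk)) (by linarith) h4
    simp only [sub_re, sub_im]
    convert this using 2 <;> simp only [hp, hq] <;> ring

theorem esc_of {z : ℂ} (hz : z ∈ Om) (h3 : z ∉ Gam) : Esc z := by
  rcases mem_iff.1 hz with ⟨h1, h2⟩ | ⟨h1, h2⟩ | ⟨h1, h2⟩
  · rw [abs_lt] at h2
    rcases lt_trichotomy z.im 0 with h | h | h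
    · refine Esc.neg (esc_A (by simpa using h1) (by simpa using h) ?_)
      simp only [neg_im]; linarith [h2.1]
    · exact absurd (Or.inl (Or.inl ⟨h, h1⟩)) h3
    · exact esc_A h1 h h2.2
  · exact esc_D h1 h2 h3
  · refine Esc.neg (esc_D ?_ ?_ (fun h => h3 (neg_Gam.1 h)))
    · simp only [neg_re, neg_im]; linarith
    · simp only [neg_re, neg_im]
      exact h2.imp (fun h => by linarith) (fun h => by linarith)

theorem compl_ne : (Omᶜ : Set ℂ).Nonempty := ⟨_, pt_notMem (a := 0) (b := 0) (Or.inl ⟨rfl, le_rfl⟩)⟩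

theorem locMax_sub {z : ℂ} (hz : z ∈ Om) (h : IsLocalMax (fun w : ℂ => infDist w Omᶜ) z) :
    z ∈ Gam := by
  by_contra h3
  obtain ⟨u, hu⟩ := esc_of hz h3
  obtain ⟨k, hk, hn, hle⟩ := locMax_nearest isOpen_Om.isClosed_compl compl_ne h u
  have := hu k hk hn
  linarith

def Close (z : ℂ) : Prop := ∃ k, k ∉ Om ∧ ‖z - k‖ ≤ 1

theorem Close.neg {z : ℂ} (h : Close (-z)) : Close z := by
  obtain ⟨k, hk, h⟩ := h
  refine ⟨-k, fun h => hk (neg_mem.1 h), ?_⟩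
  have e : z - -k = -(-z - k) := by ring
  rw [e, norm_neg]; exact h

theorem close_pt {z : ℂ} {a b : ℝ} (h : K0 a b)
    (h1 : ((z.re - 12) - a) ^ 2 + ((z.im - 1) - b) ^ 2 ≤ 1) : Close z := by
  refine ⟨_, pt_notMem h, ?_⟩
  rw [← dist_pt] at h1
  nlinarith [norm_nonneg (z - ⟨a + 12, b + 1⟩)]

theorem close_A {z : ℂ} (h1 : |z.re| ≤ 12) (h2 : 0 ≤ z.im) (h3 : z.im < 1) : Close z := by
  rw [abs_le] at h1
  refine close_pt (a := z.re - 12) (b := 0) (Or.inl ⟨rfl, by linarith [h1.2]⟩) ?_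
  nlinarith

theorem close_D {z : ℂ} (h1 : (z.re - 12) ^ 2 + (z.im - 1) ^ 2 < 4) (h2 : 12 < z.re ∨ 1 < z.im) :
    Close z := by
  by_cases h : (z.re - 12) ^ 2 + (z.im - 1) ^ 2 ≤ 1
  · exact close_pt (a := 0) (b := 0) (Or.inl ⟨rfl, le_rfl⟩) (by simpa using h)
  rw [not_le] at h
  set p := z.re - 12 with hp
  set q := z.im - 1 with hq
  set ρ := Real.sqrt (p ^ 2 + q ^ 2) with hρ
  have hρ2 : ρ ^ 2 = p ^ 2 + q ^ 2 := Real.sq_sqrt (by linarith)
  have hρ0 : 0 < ρ := Real.sqrt_pos.2 (by linarith)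
  have hρ3 : ρ < 2 := by nlinarith
  have hρ4 : 1 < ρ := by nlinarith
  have hsg : 0 ≤ q ∨ 0 ≤ p := h2.symm.imp (fun h => by linarith) (fun h => by linarith)
  obtain ⟨hr1, hr2⟩ := radial hρ2 hρ0 hsg
  refine close_pt hr1 ?_
  rw [← hp, ← hq, hr2]
  nlinarith

theorem infDist_le_one (z : ℂ) : infDist z Omᶜ ≤ 1 := by
  by_cases hz : z ∈ Om
  · have : Close z := by
      rcases mem_iff.1 hz with ⟨h1, h2⟩ | ⟨h1, h2⟩ | ⟨h1, h2⟩
      · rw [abs_lt] at h2
        rcases le_total 0 z.im with h | h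
        · exact close_A h1 h h2.2
        · refine Close.neg (close_A (by simpa using h1) (by simpa using h) ?_)
          simp only [neg_im]; linarith [h2.1]
      · exact close_D h1 h2
      · refine Close.neg (close_D ?_ ?_)
        · simp only [neg_re, neg_im]; linarith
        · simp only [neg_re, neg_im]
          exact h2.imp (fun h => by linarith) (fun h => by linarith)
    obtain ⟨k, hk, h⟩ := this
    refine (infDist_le_dist_of_mem (show k ∈ Omᶜ from hk)).trans ?_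
    rwa [dist_eq_norm]
  · rw [infDist_zero_of_mem (show z ∈ Omᶜ from hz)]; exact zero_le_one

theorem far_half {z : ℂ} (hz : (z.im = 0 ∧ |z.re| ≤ 12) ∨
    ((z.re - 12) ^ 2 + (z.im - 1) ^ 2 = 1 ∧ 12 ≤ z.re)) {k : ℂ} (hk : k ∉ Om) : 1 ≤ ‖z - k‖ := by
  by_contra hcon
  rw [not_le] at hcon
  have h0 : ‖z - k‖ ^ 2 < 1 := by nlinarith [norm_nonneg (z - k)]
  rw [dist_rel] at h0
  rcases hz with ⟨h1, h2⟩ | ⟨h1, h2⟩
  · rw [abs_le] at h2
    rw [h1] at h0
    have := (lemA (p := z.re - 12) (q := 0 - 1) (by linarith [h2.1]) (by linarith [h2.2])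
      (by linarith) (by linarith) (notMem_rel.1 hk) (by linarith) (Or.inr (by linarith))).2
    rcases this with h | h
    · linarith
    · exact h
  · rcases weak (notMem_rel.1 hk) with ⟨k1, k2⟩ | k1
    · rw [k1] at h0
      nlinarith [mul_nonneg (sub_nonneg.2 h2) (neg_nonneg.2 k2), sq_nonneg (k.re - 12)]
    · nlinarith [sq_nonneg (k.re - 12 - 2 * (z.re - 12)), sq_nonneg (k.im - 1 - 2 * (z.im - 1))]

theorem far_Gam {z : ℂ} (hz : z ∈ Gam) {k : ℂ} (hk : k ∉ Om) : 1 ≤ ‖z - k‖ := by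
  rcases hz with hz | ⟨h1, h2⟩
  · exact far_half hz hk
  · have := far_half (z := -z) (k := -k) (Or.inr ⟨by simp only [neg_re, neg_im]; linarith,
      by simp only [neg_re]; linarith⟩) (fun h => hk (neg_mem.1 h))
    have e : -z - -k = -(z - k) := by ring
    rwa [e, norm_neg] at this

theorem Gam_sub {z : ℂ} (hz : z ∈ Gam) :
    z ∈ Om ∧ IsLocalMax (fun w : ℂ => infDist w Omᶜ) z := by
  constructor
  · by_contra h
    have := far_Gam hz h
    simp only [sub_self, norm_zero] at this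
    linarith
  · refine Eventually.of_forall fun w => (infDist_le_one w).trans ?_
    rw [le_infDist compl_ne]
    intro k hk
    rw [dist_eq_norm]
    exact far_Gam hz hk

theorem preconn_arc : IsPreconnected
    {z : ℂ | (z.re - 12) ^ 2 + (z.im - 1) ^ 2 = 1 ∧ 12 ≤ z.re} := by
  have e : {z : ℂ | (z.re - 12) ^ 2 + (z.im - 1) ^ 2 = 1 ∧ 12 ≤ z.re} =
      (fun t : ℝ => ((12 + Real.sqrt (1 - t ^ 2) : ℝ) : ℂ) + ((1 + t : ℝ) : ℂ) * I) ''
        Icc (-1) 1 := by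
    ext z
    simp only [mem_ofPred_eq, mem_image, mem_Icc]
    constructor
    · rintro ⟨h1, h2⟩
      refine ⟨z.im - 1, ⟨by nlinarith [sq_nonneg (z.re - 12)], by nlinarith [sq_nonneg (z.re - 12)]⟩,
        ?_⟩
      have : 1 - (z.im - 1) ^ 2 = (z.re - 12) ^ 2 := by linarith
      rw [this, Real.sqrt_sq (by linarith)]
      apply Complex.ext <;> simp
    · rintro ⟨t, ⟨h1, h2⟩, rfl⟩
      have h3 : 0 ≤ 1 - t ^ 2 := by nlinarith
      have h4 := Real.sq_sqrt h3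
      have h5 := Real.sqrt_nonneg (1 - t ^ 2)
      simp only [add_re, ofReal_re, mul_re, I_re, mul_zero, ofReal_im, I_im, mul_one, sub_self,
        add_zero, add_im, mul_im, zero_add]
      constructor
      · nlinarith
      · linarith
  rw [e]
  exact isPreconnected_Icc.image _ (by fun_prop)

theorem preconn_Gam : IsPreconnected Gam := by
  have h1 : IsPreconnected {z : ℂ | z.im = 0 ∧ |z.re| ≤ 12} := by
    have e : {z : ℂ | z.im = 0 ∧ |z.re| ≤ 12} = (fun t : ℝ => (t : ℂ)) '' Icc (-12) 12 := by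
      ext z
      simp only [mem_ofPred_eq, mem_image, mem_Icc, abs_le]
      constructor
      · rintro ⟨h1, h2⟩
        exact ⟨z.re, h2, Complex.ext (by simp) (by simp [h1])⟩
      · rintro ⟨t, ht, rfl⟩
        exact ⟨by simp, by simpa using ht⟩
    rw [e]
    exact isPreconnected_Icc.image _ (by fun_prop)
  have h3 : IsPreconnected {z : ℂ | (z.re + 12) ^ 2 + (z.im + 1) ^ 2 = 1 ∧ z.re ≤ -12} := by
    have e : {z : ℂ | (z.re + 12) ^ 2 + (z.im + 1) ^ 2 = 1 ∧ z.re ≤ -12} = (fun z : ℂ => -z) ''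
        {z : ℂ | (z.re - 12) ^ 2 + (z.im - 1) ^ 2 = 1 ∧ 12 ≤ z.re} := by
      ext z
      simp only [mem_ofPred_eq, mem_image]
      constructor
      · rintro ⟨h1, h2⟩
        refine ⟨-z, ⟨?_, ?_⟩, neg_neg z⟩
        · simp only [neg_re, neg_im]; linarith
        · simp only [neg_re]; linarith
      · rintro ⟨w, ⟨h1, h2⟩, rfl⟩
        simp only [neg_re, neg_im]
        constructor <;> linarith
    rw [e]
    exact preconn_arc.image _ (by fun_prop)
  refine IsPreconnected.union (-12 : ℂ) ?_ ?_ (IsPreconnected.union (12 : ℂ) ?_ ?_ h1 preconn_arc) h3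
  · left; simp
  · simp
  · simp
  · simp

theorem locMax_eq : {z : ℂ | z ∈ Om ∧ IsLocalMax (fun w : ℂ => infDist w Omᶜ) z} = Gam := by
  ext z
  exact ⟨fun h => locMax_sub h.1 h.2, fun h => Gam_sub h⟩

end Pool.Agent.H540Z.Tor
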