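import Mathlib
import Pool.Agent.H777R2.Pois
import Pool.Agent.Helper202.Riemann

set_option autoImplicit false
open Complex Set Filter Metric Topology

namespace Pool.Agent.H540Z.Tor

/-- Maximum principle for a function that is the real part of a holomorphic function inside a
bounded open set and is continuous on the closure. -/
theorem maxP {U : Set ℂ} (hU : IsOpen U) (hb : Bornology.IsBounded U) {u : ℂ → ℝ} {F : ℂ → ℂ}
    (hc : ContinuousOn u (closure U)) (hF : DifferentiableOn ℂ F U)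
    (he : ∀ z ∈ U, u z = (F z).re) {M : ℝ} (hf : ∀ z ∈ frontier U, u z ≤ M) :
    ∀ z ∈ closure U, u z ≤ M := by
  intro z0 hz0
  have hK : IsCompact (closure U) := hb.isCompact_closure
  obtain ⟨p, hp, hmax⟩ := hK.exists_isMaxOn ⟨z0, hz0⟩ hc
  by_contra hcon
  rw [not_le] at hcon
  have hpM : M < u p := lt_of_lt_of_le hcon (hmax hz0)
  set A : Set ℂ := {z | z ∈ closure U ∧ u z = u p} with hA
  have hAU : A ⊆ U := by
    intro z hz
    by_contra hzU
    have : z ∈ frontier U := by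
      rw [hU.frontier_eq]; exact ⟨hz.1, hzU⟩
    have := hf z this
    rw [hz.2] at this
    linarith
  have hAc : IsClosed A := by
    have := hc.preimage_isClosed_of_isClosed isClosed_closure (isClosed_singleton (x := u p))
    exact this
  have hAo : IsOpen A := by
    rw [isOpen_iff_mem_nhds]
    intro z hz
    have hzU : U ∈ 𝓝 z := hU.mem_nhds (hAU hz)
    have hd : ∀ᶠ w in 𝓝 z, DifferentiableAt ℂ (fun w => exp (F w)) w := by
      filter_upwards [hzU] with w hw
      exact (hF.differentiableAt (hU.mem_nhds hw)).cexp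
    have hm : IsLocalMax (norm ∘ fun w => exp (F w)) z := by
      filter_upwards [hzU] with w hw
      simp only [Function.comp, norm_exp]
      rw [← he w hw, ← he z (hAU hz), hz.2]
      exact Real.exp_le_exp.2 (hmax (subset_closure hw))
    have h1 := norm_eventually_eq_of_isLocalMax hd hm
    filter_upwards [h1, hzU] with w hw hwU
    refine ⟨subset_closure hwU, ?_⟩
    simp only [norm_exp] at hw
    rw [← he w hwU, ← he z (hAU hz), hz.2] at hw
    exact Real.exp_injective hw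
  have hAne : A.Nonempty := ⟨p, hp, rfl⟩
  have hAuniv : A = univ := IsClopen.eq_univ ⟨hAc, hAo⟩ hAne
  have : Bornology.IsBounded (univ : Set ℂ) := hb.subset (hAuniv ▸ hAU)
  exact NormedSpace.unbounded_univ ℝ ℂ this

/-- The Dirichlet problem in the unit disc. -/
theorem disc_one {g : ℂ → ℝ} (hg : ContinuousOn g (sphere (0:ℂ) 1)) :
    ∃ (H : ℂ → ℂ) (u : ℂ → ℝ), DifferentiableOn ℂ H (ball 0 1) ∧ ContinuousOn u (closedBall 0 1) ∧
      (∀ z ∈ ball (0:ℂ) 1, u z = (H z).re) ∧ (∀ z ∈ sphere (0:ℂ) 1, u z = g z) := by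
  let φ : ℂ → ℂ := fun z => (g z : ℂ)
  have hφ : ContinuousOn φ (sphere (0:ℂ) 1) := continuous_ofReal.comp_continuousOn hg
  let P : ℂ → ℂ := fun z => ((1 / (2 * Real.pi) : ℝ) : ℂ) *
          ∫ t in (0:ℝ)..(2 * Real.pi),
            (((1 - ‖z‖ ^ 2) / ‖Complex.exp ((t : ℂ) * Complex.I) - z‖ ^ 2 : ℝ) : ℂ) *
              φ (Complex.exp ((t : ℂ) * Complex.I))
  have hP : H777R2.IsPoisson φ P := fun z _ => rfl
  obtain ⟨H, hH, hHe⟩ := H777R2.harm hP hφ 1
  refine ⟨H, fun z => (H777R2.ext φ P z).re, hH,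
    continuous_re.comp_continuousOn (H777R2.ext_cont hP hφ), ?_, ?_⟩
  · intro z hz
    simp only [H777R2.ext_ball hz, hHe z hz, one_mul]
  · intro z hz
    simp only [H777R2.ext_sphere hz, φ, ofReal_re]

/-- The Dirichlet problem in a disc about the origin, with the holomorphic function real at 0. -/
theorem disc_r {r : ℝ} (hr : 0 < r) {g : ℂ → ℝ} (hg : ContinuousOn g (sphere (0:ℂ) r)) :
    ∃ (H : ℂ → ℂ) (u : ℂ → ℝ), DifferentiableOn ℂ H (ball 0 r) ∧ ContinuousOn u (closedBall 0 r) ∧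
      (∀ z ∈ ball (0:ℂ) r, u z = (H z).re) ∧ (∀ z ∈ sphere (0:ℂ) r, u z = g z) ∧ (H 0).im = 0 := by
  have hr' : (r : ℂ) ≠ 0 := by exact_mod_cast hr.ne'
  have hg1 : ContinuousOn (fun z : ℂ => g (r * z)) (sphere (0:ℂ) 1) := by
    refine hg.comp (by fun_prop) ?_
    intro z hz
    rw [mem_sphere_zero_iff_norm] at hz ⊢
    simp [hz, abs_of_pos hr]
  obtain ⟨H, u, h1, h2, h3, h4⟩ := disc_one hg1
  have hn : ∀ z : ℂ, ‖z / r‖ = ‖z‖ / r := by
    intro z; simp [abs_of_pos hr]
  have hb : ∀ z ∈ ball (0:ℂ) r, z / r ∈ ball (0:ℂ) 1 := by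
    intro z hz
    rw [mem_ball_zero_iff] at hz ⊢
    rw [hn, div_lt_one hr]; exact hz
  refine ⟨fun z => H (z / r) - (H 0).im * I, fun z => u (z / r), ?_, ?_, ?_, ?_, ?_⟩
  · refine DifferentiableOn.sub_const ?_ _
    exact h1.comp (by fun_prop) hb
  · refine h2.comp (by fun_prop) ?_
    intro z hz
    rw [mem_closedBall_zero_iff] at hz ⊢
    rw [hn, div_le_one hr]; exact hz
  · intro z hz
    simp [h3 _ (hb z hz)]
  · intro z hz
    have : z / r ∈ sphere (0:ℂ) 1 := by
      rw [mem_sphere_zero_iff_norm] at hz ⊢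
      rw [hn, hz, div_self hr.ne']
    simp only [h4 _ this]
    congr 1
    field_simp
  · simp

theorem sq_half_ge (a b : ℂ) : ((starRingEnd ℂ) a * b).re - ‖a‖ ^ 2 / 2 ≤ ‖b‖ ^ 2 / 2 := by
  rw [Complex.sq_norm, Complex.sq_norm, normSq_apply, normSq_apply]
  simp only [mul_re, conj_re, conj_im]
  nlinarith [sq_nonneg (a.re - b.re), sq_nonneg (a.im - b.im)]

theorem sq_half_eq (a : ℂ) : ((starRingEnd ℂ) a * a).re - ‖a‖ ^ 2 / 2 = ‖a‖ ^ 2 / 2 := by
  rw [Complex.sq_norm, normSq_apply]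
  simp only [mul_re, conj_re, conj_im]
  ring

/-- The least harmonic majorant of `|φ|²/2` in the unit disc, for bounded holomorphic `φ`. -/
theorem majorant {φ : ℂ → ℂ} (hφ : DifferentiableOn ℂ φ (ball 0 1)) {B : ℝ}
    (hB : ∀ w ∈ ball (0:ℂ) 1, ‖φ w‖ ≤ B) :
    ∃ H : ℂ → ℂ, DifferentiableOn ℂ H (ball 0 1) ∧ (∀ w ∈ ball (0:ℂ) 1, ‖φ w‖ ^ 2 / 2 ≤ (H w).re) ∧
      ∀ F : ℂ → ℂ, DifferentiableOn ℂ F (ball 0 1) →
        (∀ w ∈ ball (0:ℂ) 1, ‖φ w‖ ^ 2 / 2 ≤ (F w).re) → ∀ w ∈ ball (0:ℂ) 1, (H w).re ≤ (F w).re := by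
  obtain ⟨r, hrm, hr01, hrl⟩ := exists_seq_strictMono_tendsto' (α := ℝ) (zero_lt_one)
  have hsub : ∀ n, closedBall (0:ℂ) (r n) ⊆ ball 0 1 := fun n =>
    closedBall_subset_ball (hr01 n).2
  have hg : ∀ n, ContinuousOn (fun w => ‖φ w‖ ^ 2 / 2) (sphere (0:ℂ) (r n)) := by
    intro n
    have := hφ.continuousOn.mono (sphere_subset_closedBall.trans (hsub n))
    exact (this.norm.pow 2).div_const 2
  choose H u h1 h2 h3 h4 h5 using fun n => disc_r (hr01 n).1 (hg n)
  have hcl : ∀ n, closure (ball (0:ℂ) (r n)) = closedBall 0 (r n) := fun n =>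
    closure_ball 0 (hr01 n).1.ne'
  have hfr : ∀ n, frontier (ball (0:ℂ) (r n)) = sphere 0 (r n) := fun n =>
    frontier_ball 0 (hr01 n).1.ne'
  -- (a) lower bound
  have hlow : ∀ n, ∀ w ∈ ball (0:ℂ) (r n), ‖φ w‖ ^ 2 / 2 ≤ (H n w).re := by
    intro n w hw
    have hφn := hφ.mono (hsub n)
    have key := maxP (U := ball (0:ℂ) (r n)) isOpen_ball isBounded_ball
      (u := fun z => ((starRingEnd ℂ) (φ w) * φ z).re - ‖φ w‖ ^ 2 / 2 - u n z)
      (F := fun z => (starRingEnd ℂ) (φ w) * φ z - ((‖φ w‖ ^ 2 / 2 : ℝ) : ℂ) - H n z) (M := 0)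
      (by
        rw [hcl]
        refine ContinuousOn.sub (ContinuousOn.sub ?_ continuousOn_const) (h2 n)
        exact continuous_re.comp_continuousOn (continuousOn_const.mul hφn.continuousOn))
      (by
        refine DifferentiableOn.sub (DifferentiableOn.sub_const ?_ _) (h1 n)
        exact (hφn.mono ball_subset_closedBall).const_mul _)
      (by
        intro z hz
        simp only [sub_re, ofReal_re, h3 n z hz])
      (by
        intro z hz
        rw [hfr] at hz
        simp only [h4 n z hz]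
        have := sq_half_ge (φ w) (φ z)
        linarith)
      w (subset_closure hw)
    simp only [sq_half_eq, h3 n w hw] at key
    linarith
  -- (c) upper bound by any majorant on a larger disc
  have hup : ∀ n, ∀ F : ℂ → ℂ, DifferentiableOn ℂ F (closedBall 0 (r n)) →
      (∀ w ∈ sphere (0:ℂ) (r n), ‖φ w‖ ^ 2 / 2 ≤ (F w).re) →
      ∀ w ∈ ball (0:ℂ) (r n), (H n w).re ≤ (F w).re := by
    intro n F hF hFw w hw
    have key := maxP (U := ball (0:ℂ) (r n)) isOpen_ball isBounded_ball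
      (u := fun z => u n z - (F z).re) (F := fun z => H n z - F z) (M := 0)
      (by
        rw [hcl]
        exact (h2 n).sub (continuous_re.comp_continuousOn hF.continuousOn))
      ((h1 n).sub (hF.mono ball_subset_closedBall))
      (by
        intro z hz
        simp only [sub_re, h3 n z hz])
      (by
        intro z hz
        rw [hfr] at hz
        simp only [h4 n z hz]
        have := hFw z hz
        linarith)
      w (subset_closure hw)
    simp only [h3 n w hw] at key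
    linarith
  have hmono : ∀ n m, n ≤ m → ∀ w ∈ ball (0:ℂ) (r n), (H n w).re ≤ (H m w).re := by
    intro n m hnm w hw
    rcases hnm.eq_or_lt with rfl | hlt
    · exact le_rfl
    have hs : closedBall (0:ℂ) (r n) ⊆ ball 0 (r m) := closedBall_subset_ball (hrm hlt)
    exact hup n (H m) ((h1 m).mono hs)
      (fun z hz => hlow m z (hs (sphere_subset_closedBall hz))) w hw
  have hbd : ∀ n, ∀ w ∈ ball (0:ℂ) (r n), (H n w).re ≤ B ^ 2 / 2 := by
    intro n w hw
    have := hup n (fun _ => ((B ^ 2 / 2 : ℝ) : ℂ)) (differentiableOn_const _) (by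
      intro z hz
      have h := hB z (hsub n (sphere_subset_closedBall hz))
      simp only [ofReal_re]
      have := norm_nonneg (φ z)
      nlinarith) w hw
    simpa only [ofReal_re] using this
  have h0 : ∀ n, (0:ℂ) ∈ ball (0:ℂ) (r n) := fun n => mem_ball_self (hr01 n).1
  set a : ℕ → ℝ := fun n => (H n 0).re with ha
  have hamono : Monotone a := fun n m hnm => hmono n m hnm 0 (h0 n)
  have habdd : BddAbove (range a) := ⟨B ^ 2 / 2, by rintro _ ⟨n, rfl⟩; exact hbd n 0 (h0 n)⟩
  have haT : Tendsto a atTop (𝓝 (⨆ n, a n)) := tendsto_atTop_ciSup hamono habdd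
  have haC : CauchySeq a := haT.cauchySeq
  -- Harnack via Borel Caratheodory
  have hdiff : ∀ n m k, k ≤ n → n ≤ m → ∀ w ∈ ball (0:ℂ) (r k),
      ‖H n w - H m w‖ ≤ (a m - a n) * ((r k + ‖w‖) / (r k - ‖w‖)) := by
    intro n m k hkn hnm w hw
    have hs1 : ball (0:ℂ) (r k) ⊆ ball 0 (r n) := ball_subset_ball (hrm.monotone hkn)
    have hs2 : ball (0:ℂ) (r n) ⊆ ball 0 (r m) := ball_subset_ball (hrm.monotone hnm)
    have hw' : ‖w‖ < r k := mem_ball_zero_iff.1 hw
    have hn0 : ‖H n 0 - H m 0‖ = a m - a n := by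
      have : H n 0 - H m 0 = ((a n - a m : ℝ) : ℂ) := by
        apply Complex.ext <;> simp [ha, h5]
      rw [this, norm_real, Real.norm_eq_abs, abs_of_nonpos (by linarith [hamono hnm])]
      ring
    refine le_of_forall_pos_le_add fun ε hε => ?_
    set M : ℝ := ε * (r k - ‖w‖) / (2 * (‖w‖ + 1)) with hM
    have hw0 := norm_nonneg w
    have hMpos : 0 < M := by
      apply div_pos (mul_pos hε (by linarith)) (by positivity)
    have key := borelCaratheodory (f := fun z => H n z - H m z) (M := M) (R := r k) (z := w) hMpos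
      (((h1 n).mono hs1).sub ((h1 m).mono (hs1.trans hs2)))
      (by
        intro z hz
        have := hmono n m hnm z (hs1 hz)
        show (H n z - H m z).re ≤ M
        rw [sub_re]
        linarith) (hr01 k).1 hw
    rw [hn0] at key
    have h6 : 2 * M * ‖w‖ / (r k - ‖w‖) ≤ ε := by
      rw [div_le_iff₀ (by linarith), hM]
      have h7 : 0 < r k - ‖w‖ := by linarith
      have : 2 * (ε * (r k - ‖w‖) / (2 * (‖w‖ + 1))) * ‖w‖ =
          ε * (r k - ‖w‖) * (‖w‖ / (‖w‖ + 1)) := by field_simp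
      rw [this]
      have h8 : ‖w‖ / (‖w‖ + 1) ≤ 1 := by rw [div_le_one (by positivity)]; linarith
      have h9 : 0 ≤ ε * (r k - ‖w‖) := by positivity
      nlinarith
    rw [mul_div_assoc (a m - a n)] at key
    linarith
  -- uniform Cauchy on smaller discs
  have hUC : ∀ ρ : ℝ, ρ < 1 → UniformCauchySeqOn H atTop (ball (0:ℂ) ρ) := by
    intro ρ hρ
    obtain ⟨k, hk⟩ : ∃ k, ρ < r k := ((hrl.eventually (lt_mem_nhds hρ)).exists)
    rw [Metric.uniformCauchySeqOn_iff]
    intro ε hε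
    set C : ℝ := 2 / (r k - ρ) with hC
    have hCpos : 0 < C := div_pos two_pos (by linarith)
    obtain ⟨N, hN⟩ := Metric.cauchySeq_iff.1 haC (ε / (2 * C)) (by positivity)
    have main : ∀ n m, max N k ≤ n → n ≤ m → ∀ w ∈ ball (0:ℂ) ρ, ‖H n w - H m w‖ < ε := by
      intro n m hn hnm w hw
      have hw' : ‖w‖ < ρ := mem_ball_zero_iff.1 hw
      have hw0 := norm_nonneg w
      have h6 := hdiff n m k (le_trans (le_max_right _ _) hn) hnm w
        (ball_subset_ball hk.le hw)
      have h7 := hN m (le_trans (le_trans (le_max_left _ _) hn) hnm) n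
        (le_trans (le_max_left _ _) hn)
      rw [Real.dist_eq, abs_of_nonneg (by linarith [hamono hnm])] at h7
      have h8 : (r k + ‖w‖) / (r k - ‖w‖) ≤ C := by
        rw [hC, div_le_div_iff₀ (by linarith) (by linarith)]
        have := (hr01 k).2
        have := (hr01 k).1
        nlinarith
      have h9 : 0 ≤ a m - a n := by linarith [hamono hnm]
      calc ‖H n w - H m w‖ ≤ (a m - a n) * C := h6.trans (by gcongr)
        _ ≤ ε / (2 * C) * C := by gcongr
        _ = ε / 2 := by field_simp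
        _ < ε := by linarith
    refine ⟨max N k, fun m hm n hn w hw => ?_⟩
    rcases le_total m n with h | h
    · rw [dist_eq_norm]; exact main m n hm h w hw
    · rw [dist_comm, dist_eq_norm]; exact main n m hn h w hw
  let G : ℂ → ℂ := fun w => limUnder atTop (fun n => H n w)
  have hpt : ∀ w ∈ ball (0:ℂ) 1, Tendsto (fun n => H n w) atTop (𝓝 (G w)) := by
    intro w hw
    obtain ⟨ρ, hρ1, hρ2⟩ := exists_between (mem_ball_zero_iff.1 hw)
    exact ((hUC ρ hρ2).cauchySeq (mem_ball_zero_iff.2 hρ1)).tendsto_limUnder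
  have hev : ∀ w ∈ ball (0:ℂ) 1, ∀ᶠ n in atTop, w ∈ ball (0:ℂ) (r n) := by
    intro w hw
    filter_upwards [hrl.eventually (lt_mem_nhds (mem_ball_zero_iff.1 hw))] with n hn
    exact mem_ball_zero_iff.2 hn
  refine ⟨G, ?_, ?_, ?_⟩
  · intro w hw
    obtain ⟨ρ, hρ1, hρ2⟩ := exists_between (mem_ball_zero_iff.1 hw)
    have hT : TendstoUniformlyOn H G atTop (ball (0:ℂ) ρ) :=
      (hUC ρ hρ2).tendstoUniformlyOn_of_tendsto
        (fun z hz => hpt z (ball_subset_ball hρ2.le hz))
    have hD : DifferentiableOn ℂ G (ball (0:ℂ) ρ) := by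
      refine hT.tendstoLocallyUniformlyOn.differentiableOn ?_ isOpen_ball
      filter_upwards [hrl.eventually (lt_mem_nhds hρ2)] with n hn
      exact (h1 n).mono (ball_subset_ball hn.le)
    exact (hD.differentiableAt (isOpen_ball.mem_nhds (mem_ball_zero_iff.2 hρ1))).differentiableWithinAt
  · intro w hw
    have hT := (continuous_re.tendsto _).comp (hpt w hw)
    refine ge_of_tendsto hT ?_
    filter_upwards [hev w hw] with n hn
    exact hlow n w hn
  · intro F hF hFw w hw
    have hT := (continuous_re.tendsto _).comp (hpt w hw)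
    refine le_of_tendsto hT ?_
    filter_upwards [hev w hw] with n hn
    exact hup n F (hF.mono (hsub n)) (fun z hz => hFw z (hsub n (sphere_subset_closedBall hz))) w hn

/-- The least harmonic majorant of `|z|²/2` in a bounded simply connected domain. -/
theorem majorant_dom {Ω : Set ℂ} (hΩ : IsOpen Ω) (hb : Bornology.IsBounded Ω)
    (hs : IsSimplyConnected Ω) :
    ∃ G : ℂ → ℂ, DifferentiableOn ℂ G Ω ∧ (∀ z ∈ Ω, ‖z‖ ^ 2 / 2 ≤ (G z).re) ∧
      ∀ F : ℂ → ℂ, DifferentiableOn ℂ F Ω →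
        (∀ z ∈ Ω, ‖z‖ ^ 2 / 2 ≤ (F z).re) → ∀ z ∈ Ω, (G z).re ≤ (F z).re := by
  have hne : Ω ≠ univ := by
    rintro rfl
    exact NormedSpace.unbounded_univ ℝ ℂ hb
  obtain ⟨a, ha⟩ := hs.nonempty
  obtain ⟨g, ψ, hg, hbij, -, -, hψ, hψm, hgψ, -⟩ := Helper202.Riemann.riemann_inv hΩ hs hne ha
  obtain ⟨B, hB⟩ := hb.exists_norm_le
  obtain ⟨H, h1, h2, h3⟩ := majorant hg (B := B) (fun w hw => hB _ (hbij.mapsTo hw))
  refine ⟨fun z => H (ψ z), h1.comp hψ hψm, ?_, ?_⟩
  · intro z hz
    have := h2 (ψ z) (hψm hz)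
    rwa [hgψ z hz] at this
  · intro F hF hFz z hz
    have := h3 (fun w => F (g w)) (hF.comp hg hbij.mapsTo)
      (fun w hw => hFz _ (hbij.mapsTo hw)) (ψ z) (hψm hz)
    simpa only [hgψ z hz] using this

end Pool.Agent.H540Z.Tor
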