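import Pool.Agent.H540Z.Tor.Exist

set_option autoImplicit false
open Complex Set Filter Metric Topology

namespace Pool.Agent.H540Z.Tor

theorem sqrt_sq' (q : ℂ) : (Complex.sqrt q) ^ 2 = q := by
  unfold Complex.sqrt
  exact_mod_cast Complex.cpow_nat_inv_pow q (n := 2) (by norm_num)

theorem sqrt_re_nonneg (q : ℂ) : 0 ≤ (Complex.sqrt q).re := by
  rw [Complex.sqrt_eq_real_add_ite]
  simp only [add_re, ofReal_re, mul_re, I_re, mul_zero, I_im, mul_one, mul_im, ofReal_im]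
  split_ifs <;> simp <;> positivity

theorem sqrt_slit {q : ℂ} (hq : q ∈ slitPlane) : Complex.sqrt q ∈ slitPlane := by
  by_contra hcon
  rw [mem_slitPlane_iff, not_or, not_lt, not_not] at hcon
  have h1 := sqrt_re_nonneg q
  have h2 : (Complex.sqrt q).re = 0 := le_antisymm hcon.1 h1
  have h3 : Complex.sqrt q = 0 := Complex.ext h2 hcon.2
  have h4 := sqrt_sq' q
  rw [h3] at h4
  have h5 : q = 0 := by rw [← h4]; simp
  rw [h5] at hq
  exact zero_notMem_slitPlane hq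

/-- the fourth root has real part comparable with its modulus -/
theorem root4 (q : ℂ) : ‖Complex.sqrt (Complex.sqrt q)‖ ≤ 2 * (Complex.sqrt (Complex.sqrt q)).re ∧
    ‖Complex.sqrt (Complex.sqrt q)‖ ^ 4 = ‖q‖ := by
  set s := Complex.sqrt q with hs
  set b := Complex.sqrt s with hb
  have h1 : b ^ 2 = s := sqrt_sq' s
  have h2 : s ^ 2 = q := sqrt_sq' q
  have h3 : 0 ≤ s.re := sqrt_re_nonneg q
  have h4 : 0 ≤ b.re := sqrt_re_nonneg s
  constructor
  · have h5 : s.re = b.re ^ 2 - b.im ^ 2 := by rw [← h1, sq, mul_re]; ring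
    have h6 : ‖b‖ ^ 2 = b.re ^ 2 + b.im ^ 2 := by rw [Complex.sq_norm, normSq_apply]; ring
    have h7 := norm_nonneg b
    by_contra hcon
    rw [not_le] at hcon
    nlinarith
  · rw [← h2, ← h1, norm_pow, norm_pow]; ring

/-- Existence of the torsion function when from every boundary point a ray avoids the domain. -/
theorem torsion {Ω : Set ℂ} (hΩ : IsOpen Ω) (hb : Bornology.IsBounded Ω)
    (hs : IsSimplyConnected Ω)
    (hray : ∀ ζ ∈ frontier Ω, ∃ e : ℂ, e ≠ 0 ∧ ∀ t : ℝ, 0 ≤ t → ζ + t * e ∉ Ω) :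
    ∃ (v : ℂ → ℝ) (G : ℂ → ℂ), DifferentiableOn ℂ G Ω ∧ (∀ z ∈ Ω, v z = (G z).re - ‖z‖ ^ 2 / 2) ∧
      ContinuousOn v (closure Ω) ∧ (∀ z, z ∉ Ω → v z = 0) ∧ (∀ z, 0 ≤ v z) := by
  classical
  obtain ⟨G, hG, hlow, hup⟩ := majorant_dom hΩ hb hs
  let v : ℂ → ℝ := fun z => if z ∈ Ω then (G z).re - ‖z‖ ^ 2 / 2 else 0
  have hv1 : ∀ z ∈ Ω, v z = (G z).re - ‖z‖ ^ 2 / 2 := fun z hz => if_pos hz
  have hv2 : ∀ z, z ∉ Ω → v z = 0 := fun z hz => if_neg hz
  have hv3 : ∀ z, 0 ≤ v z := by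
    intro z
    by_cases hz : z ∈ Ω
    · rw [hv1 z hz]; linarith [hlow z hz]
    · rw [hv2 z hz]
  refine ⟨v, G, hG, hv1, ?_, hv2, hv3⟩
  intro ζ hζ
  by_cases hζΩ : ζ ∈ Ω
  · have hn : Ω ∈ 𝓝 ζ := hΩ.mem_nhds hζΩ
    have h1 : ContinuousAt (fun z => (G z).re - ‖z‖ ^ 2 / 2) ζ := by
      refine ContinuousAt.sub ?_ (by fun_prop)
      exact continuous_re.continuousAt.comp (hG.differentiableAt hn).continuousAt
    refine ContinuousAt.continuousWithinAt (h1.congr ?_)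
    filter_upwards [hn] with z hz
    exact (hv1 z hz).symm
  · have hζf : ζ ∈ frontier Ω := by rw [hΩ.frontier_eq]; exact ⟨hζ, hζΩ⟩
    obtain ⟨e, he, hre⟩ := hray ζ hζf
    have he0 : 0 < ‖e‖ := norm_pos_iff.2 he
    let q : ℂ → ℂ := fun z => -(z - ζ) / e
    have hq : ∀ z ∈ Ω, q z ∈ slitPlane := by
      intro z hz
      by_contra hcon
      rw [mem_slitPlane_iff, not_or, not_lt, not_not] at hcon
      apply hre (-(q z).re) (by linarith [hcon.1])
      have h1 : q z = ((q z).re : ℂ) := Complex.ext (by simp) (by simp [hcon.2])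
      have h2 : ζ + ((-(q z).re : ℝ) : ℂ) * e = z := by
        push_cast
        rw [← h1]
        simp only [q]
        field_simp
        ring
      rw [h2]; exact hz
    let b : ℂ → ℂ := fun z => Complex.sqrt (Complex.sqrt (q z))
    have hbd : DifferentiableOn ℂ b Ω := by
      intro z hz
      have h1 : DifferentiableAt ℂ q z := by simp only [q]; fun_prop
      have h2 : DifferentiableAt ℂ (fun z => Complex.sqrt (q z)) z :=
        (differentiableAt_sqrt (hq z hz)).comp z h1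
      exact ((differentiableAt_sqrt (sqrt_slit (hq z hz))).comp z h2).differentiableWithinAt
    have hb4 : ∀ z, ‖b z‖ ^ 4 * ‖e‖ = ‖z - ζ‖ := by
      intro z
      rw [(root4 (q z)).2]
      simp only [q, norm_div, norm_neg]
      field_simp
    obtain ⟨R, hR⟩ := hb.exists_norm_le
    set D : ℝ := (R + ‖ζ‖) / ‖e‖ + 1 with hD
    have hbD : ∀ z ∈ Ω, ‖b z‖ ≤ D := by
      intro z hz
      have h1 : ‖z - ζ‖ ≤ R + ‖ζ‖ := (norm_sub_le _ _).trans (by linarith [hR z hz])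
      have h2 : ‖b z‖ ^ 4 ≤ (R + ‖ζ‖) / ‖e‖ := by
        rw [le_div_iff₀ he0, hb4]; exact h1
      by_contra hcon
      rw [not_le] at hcon
      have h3 : 0 ≤ (R + ‖ζ‖) / ‖e‖ := le_trans (by positivity) h2
      have h4 : 1 ≤ ‖b z‖ := by linarith
      have h5 : ‖b z‖ ≤ ‖b z‖ ^ 4 := le_self_pow₀ h4 (by norm_num)
      linarith
    set C : ℝ := ‖e‖ ^ 2 * |D| ^ 7 with hC
    have hC0 : 0 ≤ C := by positivity
    let F : ℂ → ℂ := fun z => (C : ℂ) * b z + (starRingEnd ℂ) ζ * z - ((‖ζ‖ ^ 2 / 2 : ℝ) : ℂ)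
    have hF : DifferentiableOn ℂ F Ω := by
      refine DifferentiableOn.sub_const (DifferentiableOn.add (hbd.const_mul _) ?_) _
      fun_prop
    have hFre : ∀ z, (F z).re - ‖z‖ ^ 2 / 2 = C * (b z).re - ‖z - ζ‖ ^ 2 / 2 := by
      intro z
      simp only [F, sub_re, add_re, ofReal_re, Complex.sq_norm, normSq_apply,
        mul_re, conj_re, conj_im, sub_im, ofReal_im]
      ring
    have hFz : ∀ z ∈ Ω, ‖z‖ ^ 2 / 2 ≤ (F z).re := by
      intro z hz
      have h1 := hFre z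
      have h2 := (root4 (q z)).1
      have h3 : ‖z - ζ‖ ^ 2 ≤ C * ‖b z‖ := by
        rw [← hb4, hC]
        have h4 : ‖b z‖ ^ 7 ≤ |D| ^ 7 := by
          gcongr
          exact (hbD z hz).trans (le_abs_self D)
        calc (‖b z‖ ^ 4 * ‖e‖) ^ 2 = ‖e‖ ^ 2 * ‖b z‖ ^ 7 * ‖b z‖ := by ring
          _ ≤ ‖e‖ ^ 2 * |D| ^ 7 * ‖b z‖ := by gcongr
      have h5 : C * ‖b z‖ ≤ C * (2 * (b z).re) := by gcongr
      linarith
    have hvb : ∀ z, v z ≤ C * ‖b z‖ := by
      intro z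
      by_cases hz : z ∈ Ω
      · have h1 := hup F hF hFz z hz
        have h2 := hFre z
        have h3 : C * (b z).re ≤ C * ‖b z‖ := by gcongr; exact re_le_norm _
        rw [hv1 z hz]
        nlinarith [sq_nonneg ‖z - ζ‖]
      · rw [hv2 z hz]; positivity
    have hlim : Tendsto (fun z => C * ‖b z‖) (𝓝 ζ) (𝓝 0) := by
      have h1 : ∀ z, ‖b z‖ = Real.sqrt (Real.sqrt (‖z - ζ‖ / ‖e‖)) := by
        intro z
        have h2 : ‖z - ζ‖ / ‖e‖ = (‖b z‖ ^ 2) ^ 2 := by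
          rw [← hb4]; field_simp
        rw [h2, Real.sqrt_sq (by positivity), Real.sqrt_sq (by positivity)]
      simp only [h1]
      have h3 : Continuous fun z : ℂ => C * Real.sqrt (Real.sqrt (‖z - ζ‖ / ‖e‖)) := by fun_prop
      have h4 := h3.tendsto ζ
      simpa using h4
    have h6 : Tendsto v (𝓝 ζ) (𝓝 0) :=
      tendsto_of_tendsto_of_tendsto_of_le_of_le tendsto_const_nhds hlim hv3 hvb
    refine ContinuousAt.continuousWithinAt ?_
    rw [ContinuousAt, hv2 ζ hζΩ]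
    exact h6

theorem hasFDerivAt_tor {G : ℂ → ℂ} {G' w : ℂ} (hG : HasDerivAt G G' w) :
    ∃ L : ℂ →L[ℝ] ℝ, HasFDerivAt (fun z => (G z).re - ‖z‖ ^ 2 / 2) L w ∧
      ∀ h : ℂ, L h = (G' * h).re - (w.re * h.re + w.im * h.im) := by
  have h1 : HasFDerivAt G ((ContinuousLinearMap.toSpanSingleton ℂ G').restrictScalars ℝ) w :=
    hG.hasFDerivAt.restrictScalars ℝ
  have h2 := reCLM.hasFDerivAt.comp w h1
  have h3 : HasFDerivAt (fun z : ℂ => z.re) reCLM w := reCLM.hasFDerivAt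
  have h4 : HasFDerivAt (fun z : ℂ => z.im) imCLM w := imCLM.hasFDerivAt
  have h5 := (((h3.mul h3).add (h4.mul h4)).const_mul (1 / 2 : ℝ))
  have h6 := h2.sub h5
  refine ⟨_, h6.congr_of_eventuallyEq (Eventually.of_forall fun z => ?_), ?_⟩
  · simp only [Function.comp, reCLM_apply, Pi.sub_apply, Pi.add_apply, Pi.mul_apply,
      Complex.sq_norm, normSq_apply]
    ring
  · intro h
    simp [mul_comm]
    ring

theorem smooth_tor {Ω : Set ℂ} (hΩ : IsOpen Ω) {v : ℂ → ℝ} {G : ℂ → ℂ}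
    (hG : DifferentiableOn ℂ G Ω) (hv : ∀ z ∈ Ω, v z = (G z).re - ‖z‖ ^ 2 / 2) :
    ContDiffOn ℝ 2 v Ω ∧ ∀ z ∈ Ω, fderiv ℝ (fun w => fderiv ℝ v w (1 : ℂ)) z (1 : ℂ)
          + fderiv ℝ (fun w => fderiv ℝ v w Complex.I) z Complex.I = -2 := by
  constructor
  · have h1 : ContDiffOn ℂ 2 G Ω := hG.contDiffOn hΩ
    have h2 : ContDiffOn ℝ 2 G Ω := h1.restrict_scalars ℝ
    have h3 : ContDiffOn ℝ 2 (fun z => (G z).re) Ω := reCLM.contDiff.comp_contDiffOn h2
    have h4 : ContDiff ℝ 2 (fun z : ℂ => ‖z‖ ^ 2 / 2) := (contDiff_norm_sq ℝ).div_const 2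
    exact (h3.sub h4.contDiffOn).congr hv
  · intro z hz
    have hd : ∀ w ∈ Ω, ∀ h : ℂ, fderiv ℝ v w h =
        (deriv G w * h).re - (w.re * h.re + w.im * h.im) := by
      intro w hw h
      obtain ⟨L, hL, hLe⟩ := hasFDerivAt_tor (hG.differentiableAt (hΩ.mem_nhds hw)).hasDerivAt
      have : HasFDerivAt v L w := hL.congr_of_eventuallyEq (by
        filter_upwards [hΩ.mem_nhds hw] with x hx
        exact hv x hx)
      rw [this.fderiv, hLe]
    have hG' : DifferentiableOn ℂ (deriv G) Ω := hG.deriv hΩ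
    have hz' := (hG'.differentiableAt (hΩ.mem_nhds hz)).hasDerivAt
    have h1 : HasFDerivAt (deriv G)
        ((ContinuousLinearMap.toSpanSingleton ℂ (deriv (deriv G) z)).restrictScalars ℝ) z :=
      hz'.hasFDerivAt.restrictScalars ℝ
    have h2 := (reCLM.hasFDerivAt.comp z h1).sub (reCLM.hasFDerivAt (x := z))
    have h3 := (imCLM.hasFDerivAt.comp z h1).neg.sub (imCLM.hasFDerivAt (x := z))
    have e1 : (fun w => fderiv ℝ v w (1 : ℂ)) =ᶠ[𝓝 z] (⇑reCLM ∘ deriv G - ⇑reCLM) := by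
      filter_upwards [hΩ.mem_nhds hz] with w hw
      rw [hd w hw]; simp
    have e2 : (fun w => fderiv ℝ v w I) =ᶠ[𝓝 z] (-(⇑imCLM ∘ deriv G) - ⇑imCLM) := by
      filter_upwards [hΩ.mem_nhds hz] with w hw
      rw [hd w hw]; simp
    rw [(h2.congr_of_eventuallyEq e1).fderiv, (h3.congr_of_eventuallyEq e2).fderiv]
    simp
    ring

end Pool.Agent.H540Z.Tor
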