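import Pool.Agent.H540Z.Tor.Dist
import Pool.Agent.H540Z.Tor.Torsion

set_option autoImplicit false
open Complex Set Filter Metric Topology

namespace Pool.Agent.H540Z.Tor

section
variable {v : ℂ → ℝ} {G : ℂ → ℂ} (hG : DifferentiableOn ℂ G Om)
  (hv : ∀ z ∈ Om, v z = (G z).re - ‖z‖ ^ 2 / 2) (hc : ContinuousOn v (closure Om))
  (h0 : ∀ z, z ∉ Om → v z = 0) (hpos : ∀ z, 0 ≤ v z)

theorem front_notMem {z : ℂ} (hz : z ∈ frontier Om) : z ∉ Om := by
  rw [isOpen_Om.frontier_eq] at hz; exact hz.2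

include hG hv hc h0 in
theorem le_nine (z : ℂ) : v z ≤ 9 := by
  by_cases hz : z ∈ Om
  · have hcl : closure Om ⊆ {z : ℂ | |z.im| ≤ 3} :=
      closure_minimal (fun z hz => (box hz).2) (isClosed_le (by fun_prop) continuous_const)
    have key := maxP isOpen_Om bdd_Om (u := fun z => v z + z.im ^ 2) (F := fun z => G z - z ^ 2 / 2)
      (M := 9) (hc.add (by fun_prop)) (hG.sub (by fun_prop))
      (by
        intro z hz
        rw [hv z hz, nsq]
        simp only [sub_re, div_ofNat_re, sq, mul_re]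
        ring)
      (by
        intro z hz
        have h1 := hcl (frontier_subset_closure hz)
        simp only [mem_ofPred_eq, abs_le] at h1
        simp only [h0 z (front_notMem hz)]
        nlinarith [h1.1, h1.2])
      z (subset_closure hz)
    nlinarith [sq_nonneg z.im]
  · rw [h0 z hz]; norm_num

theorem cosh_big : 2048 ≤ Real.cosh 12 := by
  rw [Real.cosh_eq]
  have h1 : (2:ℝ) ≤ Real.exp 1 := by linarith [Real.add_one_le_exp 1]
  have h2 : Real.exp 12 = Real.exp 1 ^ 12 := by
    rw [← Real.exp_nat_mul]; norm_num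
  have h3 : (2:ℝ) ^ 12 ≤ Real.exp 1 ^ 12 := by gcongr
  have h4 := Real.exp_pos (-12)
  norm_num at h3
  linarith

theorem cosh_re' (z : ℂ) : (Complex.cosh z).re = Real.cosh z.re * Real.cos z.im := by
  conv_lhs => rw [← re_add_im z, Complex.cosh_add, cosh_mul_I, sinh_mul_I]
  rw [← ofReal_cosh, ← ofReal_cos, ← ofReal_sinh, ← ofReal_sin]
  simp only [add_re, mul_re, ofReal_re, ofReal_im, mul_im, I_re, I_im]
  ring

include hG hv hc h0 in
theorem at_zero : v 0 ≤ 1.01 := by
  set R : Set ℂ := {z | |z.re| < 12 ∧ |z.im| < 1} with hR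
  have hRo : IsOpen R := IsOpen.and (isOpen_lt (by fun_prop) continuous_const)
    (isOpen_lt (by fun_prop) continuous_const)
  have hRs : R ⊆ Om := fun z hz => mem_iff.2 (Or.inl ⟨hz.1.le, hz.2⟩)
  have hcl : closure R ⊆ {z | |z.re| ≤ 12 ∧ |z.im| ≤ 1} :=
    closure_minimal (fun z hz => ⟨hz.1.le, hz.2.le⟩)
      (IsClosed.and (isClosed_le (by fun_prop) continuous_const)
        (isClosed_le (by fun_prop) continuous_const))
  have hch := cosh_big
  set A : ℝ := 18 / Real.cosh 12 with hA
  have hA0 : 0 ≤ A := by positivity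
  have key := maxP hRo (bdd_Om.subset hRs)
    (u := fun z => v z + z.im ^ 2 - A * (Real.cosh z.re * Real.cos z.im))
    (F := fun z => G z - z ^ 2 / 2 - A * Complex.cosh z)
    (M := 1) (((hc.mono (closure_mono hRs)).add (by fun_prop)).sub (by fun_prop))
    (((hG.mono hRs).sub (by fun_prop)).sub (by fun_prop))
    (by
      intro z hz
      rw [hv z (hRs hz), nsq]
      simp only [sub_re, div_ofNat_re, sq, re_ofReal_mul, cosh_re', mul_re z z]
      ring)
    (by
      intro z hz
      have h1 := hcl (frontier_subset_closure hz)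
      rw [hRo.frontier_eq] at hz
      have h2 := hz.2
      simp only [hR, mem_ofPred_eq, not_and_or, not_lt] at h1 h2
      have hy : z.im ^ 2 ≤ 1 := by
        have := abs_le.1 h1.2
        nlinarith [this.1, this.2]
      have hcos : 1 / 2 ≤ Real.cos z.im := by
        linarith [Real.one_sub_sq_div_two_le_cos (x := z.im)]
      rcases h2 with h2 | h2
      · have h3 : |z.re| = 12 := le_antisymm h1.1 h2
        have h4 : Real.cosh z.re = Real.cosh 12 := by rw [← Real.cosh_abs, h3]
        have h5 : A * (Real.cosh z.re * Real.cos z.im) = 18 * Real.cos z.im := by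
          rw [h4, hA]; field_simp
        have := le_nine hG hv hc h0 z
        simp only [h5]
        linarith
      · have h3 : |z.im| = 1 := le_antisymm h1.2 h2
        have h4 : z ∉ Om := by
          rw [notMem_iff]
          have h5 := abs_le.1 h1.1
          rcases (abs_eq zero_le_one).1 h3 with h6 | h6
          · left; left; exact ⟨by linarith, by linarith [h5.2]⟩
          · right; left; exact ⟨by linarith, by linarith [h5.1]⟩
        have h5 : 0 ≤ A * (Real.cosh z.re * Real.cos z.im) := by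
          have := Real.cosh_pos z.re
          positivity
        simp only [h0 z h4]
        linarith)
    0 (subset_closure (by simp [hR]))
  simp only [zero_im, zero_re, Real.cosh_zero, Real.cos_zero] at key
  have h6 : A ≤ 18 / 2048 := by rw [hA]; gcongr
  norm_num at key h6 ⊢
  linarith

theorem P_re (s : ℂ) : (s ^ 4 / 2 + 7 / 4 * s - 5 / 8 * s ^ 3 - 3 / 16 * s ^ 5 + 1 / 32 * s ^ 7).re =
    (s.re ^ 4 - 6 * s.re ^ 2 * s.im ^ 2 + s.im ^ 4) / 2 + 7 / 4 * s.re
      - 5 / 8 * (s.re ^ 3 - 3 * s.re * s.im ^ 2)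
      - 3 / 16 * (s.re ^ 5 - 10 * s.re ^ 3 * s.im ^ 2 + 5 * s.re * s.im ^ 4)
      + 1 / 32 * (s.re ^ 7 - 21 * s.re ^ 5 * s.im ^ 2 + 35 * s.re ^ 3 * s.im ^ 4
        - 7 * s.re * s.im ^ 6) := by
  simp [pow_succ, mul_re, mul_im]
  ring

include hG hv hc hpos in
theorem at_bend : ∃ p ∈ Om, 1.03 ≤ v p := by
  set c : ℂ := ⟨12, 1⟩ with hcdef
  set Hd : Set ℂ := {s | 0 < s.re ∧ s.re ^ 2 + s.im ^ 2 < 2} with hHd
  have hHo : IsOpen Hd := IsOpen.and (isOpen_lt continuous_const (by fun_prop))
    (isOpen_lt (by fun_prop) continuous_const)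
  have hHb : Bornology.IsBounded Hd := by
    refine (isBounded_closedBall (x := (0:ℂ)) (r := 2)).subset fun s hs => ?_
    rw [mem_closedBall_zero_iff]
    have := nsq s
    nlinarith [hs.2, norm_nonneg s]
  have hre : ∀ s : ℂ, (c + s ^ 2).re = 12 + (s.re ^ 2 - s.im ^ 2) := by
    intro s; simp [hcdef, sq, mul_re]
  have him : ∀ s : ℂ, (c + s ^ 2).im = 1 + 2 * s.re * s.im := by
    intro s; simp [hcdef, sq, mul_im]; ring
  have hm : MapsTo (fun s => c + s ^ 2) Hd Om := by
    intro s hs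
    obtain ⟨h1, h2⟩ := hs
    have h3 : (s.re ^ 2 - s.im ^ 2) ^ 2 + (2 * s.re * s.im) ^ 2 < 4 := by
      have : (s.re ^ 2 - s.im ^ 2) ^ 2 + (2 * s.re * s.im) ^ 2 = (s.re ^ 2 + s.im ^ 2) ^ 2 := by
        ring
      rw [this]
      have : 0 ≤ s.re ^ 2 + s.im ^ 2 := by positivity
      nlinarith
    simp only [Om, mem_ofPred_eq, hre, him, notK0]
    constructor
    · left
      refine ⟨by linarith, ?_⟩
      by_cases hy : s.im = 0
      · left; rw [hy]; nlinarith
      · right
        have : 2 * s.re * s.im ≠ 0 := mul_ne_zero (by positivity) hy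
        intro h; apply this; linarith
    · right
      constructor
      · nlinarith [sq_nonneg s.re]
      · nlinarith [sq_nonneg (s.re + s.im)]
  have hmc : Continuous (fun s : ℂ => c + s ^ 2) := by fun_prop
  have hcl : closure Hd ⊆ {s | 0 ≤ s.re ∧ s.re ^ 2 + s.im ^ 2 ≤ 2} :=
    closure_minimal (fun z hz => ⟨hz.1.le, hz.2.le⟩)
      (IsClosed.and (isClosed_le continuous_const (by fun_prop))
        (isClosed_le (by fun_prop) continuous_const))
  let P : ℂ → ℂ := fun s => s ^ 4 / 2 + 7 / 4 * s - 5 / 8 * s ^ 3 - 3 / 16 * s ^ 5 + 1 / 32 * s ^ 7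
  have key := maxP hHo hHb
    (u := fun s => (P s).re - (s.re ^ 2 + s.im ^ 2) ^ 2 / 2 - v (c + s ^ 2))
    (F := fun s => P s - G (c + s ^ 2) + (12 - I) * s ^ 2 + 145 / 2)
    (M := 0)
    (ContinuousOn.sub (by simp only [P]; fun_prop) (hc.comp hmc.continuousOn (hm.closure hmc)))
    (by
      refine DifferentiableOn.add (DifferentiableOn.add (DifferentiableOn.sub ?_ ?_) ?_) ?_
      · simp only [P]; fun_prop
      · exact hG.comp (by fun_prop) hm
      · fun_prop
      · fun_prop)
    (by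
      intro s hs
      rw [hv _ (hm hs), nsq, hre, him]
      simp only [add_re, sub_re, mul_re, sub_im, I_re, I_im, re_ofNat, im_ofNat, div_ofNat_re,
        sq, mul_im]
      ring)
    (by
      intro s hs
      have h1 := hcl (frontier_subset_closure hs)
      rw [hHo.frontier_eq] at hs
      have h2 := hs.2
      simp only [hHd, mem_ofPred_eq, not_and_or, not_lt] at h1 h2
      have h3 := hpos (c + s ^ 2)
      simp only [P, P_re]
      rcases h2 with h2 | h2
      · have h4 : s.re = 0 := le_antisymm h2 h1.1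
        rw [h4]
        nlinarith
      · have h4 : s.im ^ 2 = 2 - s.re ^ 2 := by linarith [h1.2]
        have h5 : s.im ^ 4 = (2 - s.re ^ 2) ^ 2 := by rw [← h4]; ring
        have h6 : s.im ^ 6 = (2 - s.re ^ 2) ^ 3 := by rw [← h4]; ring
        rw [h5, h6, h4]
        have h7 : 0 ≤ 2 - s.re ^ 2 := by rw [← h4]; positivity
        have h8 : 0 ≤ 2 * s.re ^ 2 * (2 - s.re ^ 2) * (s.re - 1) ^ 2 * (s.re + 2) := by
          have := h1.1
          positivity
        nlinarith)
    ((17 / 20 : ℝ) : ℂ) (subset_closure (by simp only [hHd, mem_ofPred_eq, ofReal_re, ofReal_im]; norm_num))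
  refine ⟨_, hm (show ((17 / 20 : ℝ) : ℂ) ∈ Hd by
    simp only [hHd, mem_ofPred_eq, ofReal_re, ofReal_im]; norm_num), ?_⟩
  simp only [P, P_re, ofReal_re, ofReal_im] at key
  norm_num at key ⊢
  linarith

include hG hv hc h0 in
theorem even_le (z : ℂ) : v (-z) ≤ v z := by
  by_cases hz : z ∈ Om
  · have hm : MapsTo (fun z : ℂ => -z) Om Om := fun z hz => neg_mem.2 hz
    have key := maxP isOpen_Om bdd_Om (u := fun z => v (-z) - v z) (F := fun z => G (-z) - G z)
      (M := 0) ((hc.comp continuous_neg.continuousOn (hm.closure continuous_neg)).sub hc)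
      ((hG.comp (by fun_prop) hm).sub hG)
      (by
        intro z hz
        rw [hv z hz, hv (-z) (hm hz), norm_neg, sub_re]
        ring)
      (by
        intro z hz
        have h1 := front_notMem hz
        simp only [h0 z h1, h0 (-z) (fun h => h1 (neg_mem.1 h))]
        simp)
      z (subset_closure hz)
    linarith
  · rw [h0 z hz, h0 (-z) (fun h => hz (neg_mem.1 h))]

include hG hv hc h0 hpos in
theorem two_crit : 2 ≤ Set.encard {z : ℂ | z ∈ Om ∧ fderiv ℝ v z = 0} := by
  obtain ⟨p, hp, hvp⟩ := at_bend hG hv hc hpos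
  have hz := at_zero hG hv hc h0
  obtain ⟨m, hm, hmax⟩ := bdd_Om.isCompact_closure.exists_isMaxOn ⟨p, subset_closure hp⟩ hc
  have h1 : v p ≤ v m := hmax (subset_closure hp)
  have hmO : m ∈ Om := by
    by_contra h
    rw [h0 m h] at h1
    linarith
  have hm0 : m ≠ -m := by
    intro h
    have : m = 0 := by linear_combination h / 2
    rw [this] at h1
    linarith
  have hcrit : ∀ x ∈ Om, v m ≤ v x → fderiv ℝ v x = 0 := by
    intro x hx hle
    have : IsLocalMax v x := by
      filter_upwards [isOpen_Om.mem_nhds hx] with w hw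
      exact (hmax (subset_closure hw)).trans hle
    exact this.fderiv_eq_zero
  have h2 : ({m, -m} : Set ℂ) ⊆ {z : ℂ | z ∈ Om ∧ fderiv ℝ v z = 0} := by
    rintro z (rfl | rfl)
    · exact ⟨hmO, hcrit _ hmO le_rfl⟩
    · refine ⟨neg_mem.2 hmO, hcrit _ (neg_mem.2 hmO) ?_⟩
      simpa using even_le hG hv hc h0 (-m)
  rw [← encard_pair hm0]
  exact encard_le_encard h2

end

theorem main : ∃ (Ω : Set ℂ) (v : ℂ → ℝ), IsOpen Ω ∧ Bornology.IsBounded Ω ∧
    SimplyConnectedSpace Ω ∧ ContDiffOn ℝ 2 v Ω ∧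
      (∀ z ∈ Ω, fderiv ℝ (fun w => fderiv ℝ v w (1 : ℂ)) z (1 : ℂ)
          + fderiv ℝ (fun w => fderiv ℝ v w Complex.I) z Complex.I = -2) ∧
      ContinuousOn v (closure Ω) ∧ (∀ z ∈ frontier Ω, v z = 0) ∧
      2 ≤ Set.encard {z : ℂ | z ∈ Ω ∧ fderiv ℝ v z = 0} ∧
      IsPreconnected {z : ℂ | z ∈ Ω ∧ IsLocalMax (fun w : ℂ => Metric.infDist w Ωᶜ) z} := by
  obtain ⟨v, G, hG, hv, hc, h0, hpos⟩ := torsion isOpen_Om bdd_Om sc_Om ray_Om
  obtain ⟨h1, h2⟩ := smooth_tor isOpen_Om hG hv
  refine ⟨Om, v, isOpen_Om, bdd_Om, sc_Om, h1, h2, hc, fun z hz => h0 z (front_notMem hz),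
    two_crit hG hv hc h0 hpos, ?_⟩
  rw [locMax_eq]; exact preconn_Gam

end Pool.Agent.H540Z.Tor
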