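import Mathlib
import Pool.Agent.Helper562.VK

set_option autoImplicit false
open Complex Set Filter Metric Topology

namespace Pool.Agent.H540Z.Tor

theorem nsq (w : ℂ) : ‖w‖ ^ 2 = w.re ^ 2 + w.im ^ 2 := by
  rw [Complex.sq_norm, normSq_apply]; ring

/-- the part of the complement near the right slit tip, in coordinates centred at the tip -/
def K0 (x y : ℝ) : Prop := (y = 0 ∧ x ≤ 0) ∨ (4 ≤ x ^ 2 + y ^ 2 ∧ (0 ≤ y ∨ 0 ≤ x))

/-- the S-shaped domain -/
def Om : Set ℂ := {z | ¬ K0 (z.re - 12) (z.im - 1) ∧ ¬ K0 (-z.re - 12) (-z.im - 1)}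

theorem neg_mem {z : ℂ} : -z ∈ Om ↔ z ∈ Om := by
  simp only [Om, mem_ofPred_eq, neg_re, neg_im, neg_neg]
  exact and_comm

theorem notMem_iff {z : ℂ} : z ∉ Om ↔ K0 (z.re - 12) (z.im - 1) ∨ K0 (-z.re - 12) (-z.im - 1) := by
  simp only [Om, mem_ofPred_eq, not_and_or, not_not]

theorem notK0 {x y : ℝ} : ¬ K0 x y ↔
    (x ^ 2 + y ^ 2 < 4 ∧ (0 < x ∨ y ≠ 0)) ∨ (x < 0 ∧ y < 0) := by
  unfold K0
  constructor
  · intro h
    rw [not_or, not_and_or, not_and_or, not_le, not_le, not_or, not_le, not_le] at h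
    obtain ⟨h1, h2⟩ := h
    rcases h2 with h2 | h2
    · left; exact ⟨h2, h1.symm⟩
    · right; exact ⟨h2.2, h2.1⟩
  · rintro (⟨h1, h2⟩ | ⟨h1, h2⟩) (⟨h3, h4⟩ | ⟨h3, h4⟩)
    · rcases h2 with h2 | h2
      · linarith
      · exact h2 h3
    · linarith
    · linarith
    · rcases h4 with h4 | h4 <;> linarith

theorem mem_iff {z : ℂ} : z ∈ Om ↔ (|z.re| ≤ 12 ∧ |z.im| < 1) ∨
    ((z.re - 12) ^ 2 + (z.im - 1) ^ 2 < 4 ∧ (12 < z.re ∨ 1 < z.im)) ∨
    ((z.re + 12) ^ 2 + (z.im + 1) ^ 2 < 4 ∧ (z.re < -12 ∨ z.im < -1)) := by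
  simp only [Om, mem_ofPred_eq, notK0, abs_le, abs_lt]
  generalize z.re = x
  generalize z.im = y
  constructor
  · rintro ⟨h1, h2⟩
    by_cases hA : (x - 12) ^ 2 + (y - 1) ^ 2 < 4 ∧ (12 < x ∨ 1 < y)
    · exact Or.inr (Or.inl hA)
    by_cases hB : (x + 12) ^ 2 + (y + 1) ^ 2 < 4 ∧ (x < -12 ∨ y < -1)
    · exact Or.inr (Or.inr hB)
    left
    have k1 : x ≤ 12 ∧ y < 1 := by
      rcases h1 with ⟨h1, h3⟩ | ⟨h1, h3⟩
      · rw [not_and_or, not_or, not_lt, not_lt, not_lt] at hA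
        rcases hA with hA | hA
        · linarith
        · refine ⟨hA.1, lt_of_le_of_ne hA.2 ?_⟩
          intro h
          rcases h3 with h3 | h3
          · linarith [hA.1]
          · apply h3; linarith
      · constructor <;> linarith
    have k2 : -12 ≤ x ∧ -1 < y := by
      rcases h2 with ⟨h2, h3⟩ | ⟨h2, h3⟩
      · rw [not_and_or, not_or, not_lt, not_lt, not_lt] at hB
        rcases hB with hB | hB
        · nlinarith
        · refine ⟨hB.1, lt_of_le_of_ne hB.2 ?_⟩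
          intro h
          rcases h3 with h3 | h3
          · linarith [hB.1]
          · apply h3; linarith
      · constructor <;> linarith
    exact ⟨⟨k2.1, k1.1⟩, k2.2, k1.2⟩
  · rintro (⟨⟨h1, h2⟩, h3, h4⟩ | ⟨h1, h2⟩ | ⟨h1, h2⟩)
    · constructor
      · rcases h2.eq_or_lt with h | h
        · left; subst h
          exact ⟨by nlinarith, Or.inr (by linarith)⟩
        · right; constructor <;> linarith
      · rcases h1.eq_or_lt with h | h
        · left; subst h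
          exact ⟨by nlinarith, Or.inr (by linarith)⟩
        · right; constructor <;> linarith
    · constructor
      · left
        refine ⟨h1, h2.imp (fun h => by linarith) (fun h => by linarith)⟩
      · right; constructor <;> nlinarith
    · constructor
      · right; constructor <;> nlinarith
      · left
        refine ⟨by nlinarith, h2.imp (fun h => by linarith) (fun h => by linarith)⟩

theorem isClosed_K0 {f g : ℂ → ℝ} (hf : Continuous f) (hg : Continuous g) :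
    IsClosed {z | K0 (f z) (g z)} := by
  have h1 : IsClosed {z | g z = 0} := isClosed_eq hg continuous_const
  have h2 : IsClosed {z | f z ≤ 0} := isClosed_le hf continuous_const
  have h3 : IsClosed {z | 4 ≤ f z ^ 2 + g z ^ 2} := isClosed_le continuous_const (by fun_prop)
  have h4 : IsClosed {z | 0 ≤ g z} := isClosed_le continuous_const hg
  have h5 : IsClosed {z | 0 ≤ f z} := isClosed_le continuous_const hf
  exact (h1.inter h2).union (h3.inter (h4.union h5))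

theorem isOpen_Om : IsOpen Om := by
  have h1 := isClosed_K0 (f := fun z => z.re - 12) (g := fun z => z.im - 1) (by fun_prop)
    (by fun_prop)
  have h2 := isClosed_K0 (f := fun z => -z.re - 12) (g := fun z => -z.im - 1) (by fun_prop)
    (by fun_prop)
  exact h1.isOpen_compl.inter h2.isOpen_compl

theorem box {z : ℂ} (hz : z ∈ Om) : |z.re| ≤ 14 ∧ |z.im| ≤ 3 := by
  rw [mem_iff] at hz
  simp only [abs_le, abs_lt] at hz ⊢
  rcases hz with ⟨⟨h1, h2⟩, h3, h4⟩ | ⟨h1, -⟩ | ⟨h1, -⟩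
  · refine ⟨⟨?_, ?_⟩, ?_, ?_⟩ <;> linarith
  · refine ⟨⟨?_, ?_⟩, ?_, ?_⟩ <;> nlinarith [sq_nonneg (z.re - 12), sq_nonneg (z.im - 1)]
  · refine ⟨⟨?_, ?_⟩, ?_, ?_⟩ <;> nlinarith [sq_nonneg (z.re + 12), sq_nonneg (z.im + 1)]

theorem bdd_Om : Bornology.IsBounded Om := by
  refine (isBounded_closedBall (x := (0:ℂ)) (r := 17)).subset fun z hz => ?_
  rw [mem_closedBall_zero_iff]
  have := box hz
  linarith [norm_le_abs_re_add_abs_im z, this.1, this.2]

theorem K0_ray {x y : ℝ} (h : K0 x y) : ∃ a b : ℝ, (a ≠ 0 ∨ b ≠ 0) ∧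
    ∀ t : ℝ, 0 ≤ t → K0 (x + t * a) (y + t * b) := by
  rcases h with ⟨h1, h2⟩ | ⟨h1, h2⟩
  · refine ⟨-1, 0, Or.inl (by norm_num), fun t ht => Or.inl ⟨by simp [h1], by linarith⟩⟩
  · refine ⟨x, y, ?_, fun t ht => Or.inr ⟨?_, ?_⟩⟩
    · by_contra hc
      rw [not_or, not_not, not_not] at hc
      rw [hc.1, hc.2] at h1
      norm_num at h1
    · have : (x + t * x) ^ 2 + (y + t * y) ^ 2 = (1 + t) ^ 2 * (x ^ 2 + y ^ 2) := by ring
      rw [this]
      nlinarith [sq_nonneg t]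
    · rcases h2 with h2 | h2
      · left; positivity
      · right; positivity

theorem ray_Om : ∀ ζ ∈ frontier Om, ∃ e : ℂ, e ≠ 0 ∧ ∀ t : ℝ, 0 ≤ t → ζ + t * e ∉ Om := by
  intro ζ hζ
  rw [isOpen_Om.frontier_eq] at hζ
  rcases notMem_iff.1 hζ.2 with h | h
  · obtain ⟨a, b, hab, ht⟩ := K0_ray h
    refine ⟨⟨a, b⟩, ?_, fun t h0 => notMem_iff.2 (Or.inl ?_)⟩
    · intro h0
      rw [Complex.ext_iff] at h0
      simp only [zero_re, zero_im] at h0
      tauto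
    · have := ht t h0
      simp only [add_re, mul_re, ofReal_re, ofReal_im, zero_mul, sub_zero, add_im, mul_im,
        add_zero]
      convert this using 1 <;> ring
  · obtain ⟨a, b, hab, ht⟩ := K0_ray h
    refine ⟨-⟨a, b⟩, ?_, fun t h0 => notMem_iff.2 (Or.inr ?_)⟩
    · intro h0
      rw [neg_eq_zero, Complex.ext_iff] at h0
      simp only [zero_re, zero_im] at h0
      tauto
    · have := ht t h0
      simp only [add_re, mul_re, ofReal_re, ofReal_im, zero_mul, sub_zero, add_im, mul_im,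
        add_zero, neg_re, neg_im]
      convert this using 1 <;> ring

/-! ### Simple connectivity -/

theorem sc_union {U V : Set ℂ} (hUo : IsOpen U) (hVo : IsOpen V) (hU : IsSimplyConnected U)
    (hV : IsSimplyConnected V) (hI : IsPathConnected (U ∩ V)) : IsSimplyConnected (U ∪ V) := by
  have hemb : IsEmbedding (Subtype.val : ↥(U ∪ V) → ℂ) := IsEmbedding.subtypeVal
  have e1 : (Subtype.val : ↥(U ∪ V) → ℂ) '' (Subtype.val ⁻¹' U) = U := by
    rw [Subtype.image_preimage_coe]; exact inter_eq_right.2 subset_union_left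
  have e2 : (Subtype.val : ↥(U ∪ V) → ℂ) '' (Subtype.val ⁻¹' V) = V := by
    rw [Subtype.image_preimage_coe]; exact inter_eq_right.2 subset_union_right
  refine Helper562.VK.simplyConnected_of_union (U := (Subtype.val : ↥(U ∪ V) → ℂ) ⁻¹' U)
    (V := (Subtype.val : ↥(U ∪ V) → ℂ) ⁻¹' V) (hUo.preimage continuous_subtype_val)
    (hVo.preimage continuous_subtype_val) ?_ ?_ ?_ ?_
  · exact eq_univ_of_forall fun z => z.2
  · exact (hemb.isSimplyConnected_image.1 (by rw [e1]; exact hU))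
  · exact (hemb.isSimplyConnected_image.1 (by rw [e2]; exact hV))
  · rw [← preimage_inter]
    exact hI.preimage_coe (inter_subset_left.trans subset_union_left)

theorem sc_convex {U : Set ℂ} (hU : Convex ℝ U) (hne : U.Nonempty) : IsSimplyConnected U := by
  have := hU.contractibleSpace hne
  exact SimplyConnectedSpace.ofContractible U

theorem mem_ball_c {z : ℂ} {a b : ℝ} : z ∈ ball (⟨a, b⟩ : ℂ) 2 ↔
    (z.re - a) ^ 2 + (z.im - b) ^ 2 < 4 := by
  rw [mem_ball, dist_eq_norm, ← sq_lt_sq₀ (norm_nonneg _) (by norm_num), nsq]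
  simp only [sub_re, sub_im]
  norm_num

theorem cvx_lin (a b c : ℝ) : Convex ℝ {z : ℂ | a * z.re + b * z.im < c} := by
  have : IsLinearMap ℝ (fun z : ℂ => a * z.re + b * z.im) := by
    constructor
    · intro x y; simp; ring
    · intro r x; simp; ring
  exact convex_halfSpace_lt this c

theorem open_lin (a b c : ℝ) : IsOpen {z : ℂ | a * z.re + b * z.im < c} :=
  isOpen_lt (by fun_prop) continuous_const

theorem sc_Om : IsSimplyConnected Om := by
  let H : ℝ → ℝ → ℝ → Set ℂ := fun a b c => {z : ℂ | a * z.re + b * z.im < c}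
  let A1 : Set ℂ := ball (⟨12, 1⟩ : ℂ) 2 ∩ H 0 (-1) (-1)
  let A2 : Set ℂ := ball (⟨12, 1⟩ : ℂ) 2 ∩ H (-1) 0 (-12)
  let A3 : Set ℂ := (H 0 1 1 ∩ H 0 (-1) 1) ∩ (H 2 (-1) 25 ∩ H (-2) 1 25)
  let A4 : Set ℂ := ball (⟨-12, -1⟩ : ℂ) 2 ∩ H 1 0 (-12)
  let A5 : Set ℂ := ball (⟨-12, -1⟩ : ℂ) 2 ∩ H 0 1 (-1)
  have c1 : Convex ℝ A1 := (convex_ball _ _).inter (cvx_lin _ _ _)
  have c2 : Convex ℝ A2 := (convex_ball _ _).inter (cvx_lin _ _ _)
  have c3 : Convex ℝ A3 := ((cvx_lin _ _ _).inter (cvx_lin _ _ _)).inter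
    ((cvx_lin _ _ _).inter (cvx_lin _ _ _))
  have c4 : Convex ℝ A4 := (convex_ball _ _).inter (cvx_lin _ _ _)
  have c5 : Convex ℝ A5 := (convex_ball _ _).inter (cvx_lin _ _ _)
  have o1 : IsOpen A1 := isOpen_ball.inter (open_lin _ _ _)
  have o2 : IsOpen A2 := isOpen_ball.inter (open_lin _ _ _)
  have o3 : IsOpen A3 := ((open_lin _ _ _).inter (open_lin _ _ _)).inter
    ((open_lin _ _ _).inter (open_lin _ _ _))
  have o4 : IsOpen A4 := isOpen_ball.inter (open_lin _ _ _)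
  have o5 : IsOpen A5 := isOpen_ball.inter (open_lin _ _ _)
  have m1 : ∀ z : ℂ, z ∈ A1 ↔ (z.re - 12) ^ 2 + (z.im - 1) ^ 2 < 4 ∧ 1 < z.im := by
    intro z; simp only [A1, H, mem_inter_iff, mem_ball_c, mem_ofPred_eq]
    constructor <;> rintro ⟨h1, h2⟩ <;> exact ⟨h1, by linarith⟩
  have m2 : ∀ z : ℂ, z ∈ A2 ↔ (z.re - 12) ^ 2 + (z.im - 1) ^ 2 < 4 ∧ 12 < z.re := by
    intro z; simp only [A2, H, mem_inter_iff, mem_ball_c, mem_ofPred_eq]
    constructor <;> rintro ⟨h1, h2⟩ <;> exact ⟨h1, by linarith⟩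
  have m3 : ∀ z : ℂ, z ∈ A3 ↔ (z.im < 1 ∧ -1 < z.im) ∧
      (2 * z.re - z.im < 25 ∧ -2 * z.re + z.im < 25) := by
    intro z; simp only [A3, H, mem_inter_iff, mem_ofPred_eq]
    constructor <;> rintro ⟨⟨h1, h2⟩, h3, h4⟩ <;>
      exact ⟨⟨by linarith, by linarith⟩, by linarith, by linarith⟩
  have m4 : ∀ z : ℂ, z ∈ A4 ↔ (z.re + 12) ^ 2 + (z.im + 1) ^ 2 < 4 ∧ z.re < -12 := by
    intro z; simp only [A4, H, mem_inter_iff, mem_ball_c, mem_ofPred_eq, sub_neg_eq_add]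
    constructor <;> rintro ⟨h1, h2⟩ <;> exact ⟨h1, by linarith⟩
  have m5 : ∀ z : ℂ, z ∈ A5 ↔ (z.re + 12) ^ 2 + (z.im + 1) ^ 2 < 4 ∧ z.im < -1 := by
    intro z; simp only [A5, H, mem_inter_iff, mem_ball_c, mem_ofPred_eq, sub_neg_eq_add]
    constructor <;> rintro ⟨h1, h2⟩ <;> exact ⟨h1, by linarith⟩
  have p12 : (⟨13, 2⟩ : ℂ) ∈ A1 ∩ A2 := ⟨(m1 _).2 (by norm_num), (m2 _).2 (by norm_num)⟩
  have p23 : (⟨12 + 1 / 4, 0⟩ : ℂ) ∈ A2 ∩ A3 := ⟨(m2 _).2 (by norm_num), (m3 _).2 (by norm_num)⟩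
  have p34 : (⟨-12 - 1 / 4, 0⟩ : ℂ) ∈ A3 ∩ A4 := ⟨(m3 _).2 (by norm_num), (m4 _).2 (by norm_num)⟩
  have p45 : (⟨-13, -2⟩ : ℂ) ∈ A4 ∩ A5 := ⟨(m4 _).2 (by norm_num), (m5 _).2 (by norm_num)⟩
  have s12 : IsSimplyConnected (A1 ∪ A2) := sc_union o1 o2 (sc_convex c1 ⟨_, p12.1⟩)
    (sc_convex c2 ⟨_, p12.2⟩) ((c1.inter c2).isPathConnected ⟨_, p12⟩)
  have e3 : (A1 ∪ A2) ∩ A3 = A2 ∩ A3 := by
    ext z
    simp only [mem_inter_iff, mem_union, m1, m2, m3]
    constructor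
    · rintro ⟨h | h, h3⟩
      · linarith [h.2, h3.1.1]
      · exact ⟨h, h3⟩
    · rintro ⟨h, h3⟩; exact ⟨Or.inr h, h3⟩
  have s123 : IsSimplyConnected (A1 ∪ A2 ∪ A3) := sc_union (o1.union o2) o3 s12
    (sc_convex c3 ⟨_, p23.2⟩) (by rw [e3]; exact (c2.inter c3).isPathConnected ⟨_, p23⟩)
  have e4 : (A1 ∪ A2 ∪ A3) ∩ A4 = A3 ∩ A4 := by
    ext z
    simp only [mem_inter_iff, mem_union, m1, m2, m3, m4]
    constructor
    · rintro ⟨(h | h) | h, h3⟩
      · nlinarith [h.1, h3.2, sq_nonneg (z.im - 1)]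
      · linarith [h.2, h3.2]
      · exact ⟨h, h3⟩
    · rintro ⟨h, h3⟩; exact ⟨Or.inr h, h3⟩
  have s1234 : IsSimplyConnected (A1 ∪ A2 ∪ A3 ∪ A4) := sc_union ((o1.union o2).union o3) o4 s123
    (sc_convex c4 ⟨_, p34.2⟩) (by rw [e4]; exact (c3.inter c4).isPathConnected ⟨_, p34⟩)
  have e5 : (A1 ∪ A2 ∪ A3 ∪ A4) ∩ A5 = A4 ∩ A5 := by
    ext z
    simp only [mem_inter_iff, mem_union, m1, m2, m3, m4, m5]
    constructor
    · rintro ⟨((h | h) | h) | h, h3⟩
      · linarith [h.2, h3.2]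
      · nlinarith [h.2, h3.1, sq_nonneg (z.im + 1)]
      · linarith [h.1.2, h3.2]
      · exact ⟨h, h3⟩
    · rintro ⟨h, h3⟩; exact ⟨Or.inr h, h3⟩
  have s5 : IsSimplyConnected (A1 ∪ A2 ∪ A3 ∪ A4 ∪ A5) :=
    sc_union (((o1.union o2).union o3).union o4) o5 s1234
    (sc_convex c5 ⟨_, p45.2⟩) (by rw [e5]; exact (c4.inter c5).isPathConnected ⟨_, p45⟩)
  have e : Om = A1 ∪ A2 ∪ A3 ∪ A4 ∪ A5 := by
    ext z
    simp only [mem_iff, mem_union, m1, m2, m3, m4, m5, abs_le, abs_lt]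
    constructor
    · rintro (⟨⟨h1, h2⟩, h3, h4⟩ | ⟨h1, h2 | h2⟩ | ⟨h1, h2 | h2⟩)
      · left; left; right
        exact ⟨⟨h4, h3⟩, by linarith, by linarith⟩
      · left; left; left; right; exact ⟨h1, h2⟩
      · left; left; left; left; exact ⟨h1, h2⟩
      · left; right; exact ⟨h1, h2⟩
      · right; exact ⟨h1, h2⟩
    · rintro ((((h | h) | ⟨⟨h1, h2⟩, h3, h4⟩) | h) | h)
      · right; left; exact ⟨h.1, Or.inr h.2⟩
      · right; left; exact ⟨h.1, Or.inl h.2⟩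
      · by_cases h5 : 12 < z.re
        · right; left; exact ⟨by nlinarith, Or.inl h5⟩
        by_cases h6 : z.re < -12
        · right; right; exact ⟨by nlinarith, Or.inl h6⟩
        left
        exact ⟨⟨by linarith, by linarith⟩, h2, h1⟩
      · right; right; exact ⟨h.1, Or.inl h.2⟩
      · right; right; exact ⟨h.1, Or.inr h.2⟩
  rw [e]; exact s5

end Pool.Agent.H540Z.Tor
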